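import Pool.Agent.H30.FCB.Data

/-!
Basic lemmas on Cox data (proved).
-/

namespace FCB.Cox

variable {R ι C : Type} {r : ℕ} [CommRing R] [Algebra ℂ R] [Fintype ι] (D : Cox R ι C r)

omit [CommRing R] [Algebra ℂ R] in
lemma wtZ_zero : D.wtZ 0 = 0 := by simp [wtZ]

omit [CommRing R] [Algebra ℂ R] in
lemma wtZ_add (m n : ι → ℤ) : D.wtZ (m + n) = D.wtZ m + D.wtZ n := by
  simp [wtZ, add_smul, Finset.sum_add_distrib]

omit [CommRing R] [Algebra ℂ R] in
lemma wtZ_neg (m : ι → ℤ) : D.wtZ (-m) = -D.wtZ m := by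
  simp [wtZ]

omit [CommRing R] [Algebra ℂ R] in
lemma wtZ_sub (m n : ι → ℤ) : D.wtZ (m - n) = D.wtZ m - D.wtZ n := by
  rw [sub_eq_add_neg, wtZ_add, wtZ_neg, sub_eq_add_neg]

omit [CommRing R] [Algebra ℂ R] in
lemma wtZ_cast (n : ι → ℕ) : D.wtZ (fun j => (n j : ℤ)) = D.wt n := rfl

omit [CommRing R] [Algebra ℂ R] in
lemma wtZ_single [DecidableEq ι] (j : ι) (k : ℤ) : D.wtZ (Pi.single j k) = k • D.deg j := by
  rw [wtZ, Finset.sum_eq_single j]
  · simp
  · intro i _ hi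
    simp [Pi.single_eq_of_ne hi]
  · simp

omit [CommRing R] [Algebra ℂ R] in
lemma wt_nsmul (k : ℕ) (n : ι → ℕ) : D.wt (k • n) = k • D.wt n := by
  induction k with
  | zero => simp [D.wt_zero]
  | succ k ih => rw [succ_nsmul, D.wt_add, ih, succ_nsmul]

omit [Algebra ℂ R] in
lemma mono_nsmul (k : ℕ) (n : ι → ℕ) : D.mono (k • n) = D.mono n ^ k := by
  induction k with
  | zero => simp [D.mono_zero]
  | succ k ih => rw [succ_nsmul, D.mono_add, ih, pow_succ]

lemma pow_mem {g : Fin r → ℤ} {a : R} (ha : a ∈ D.gr g) (k : ℕ) : a ^ k ∈ D.gr (k • g) := by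
  induction k with
  | zero => simpa using D.one_mem
  | succ k ih =>
    rw [pow_succ, succ_nsmul]
    exact D.mul_mem ih ha

omit [Algebra ℂ R] in
lemma mono_single [DecidableEq ι] (j : ι) (k : ℕ) : D.mono (Pi.single j k) = D.X j ^ k := by
  rw [mono, Finset.prod_eq_single j]
  · simp
  · intro i _ hi
    simp [Pi.single_eq_of_ne hi]
  · simp

omit [CommRing R] [Algebra ℂ R] in
lemma wt_single [DecidableEq ι] (j : ι) (k : ℕ) : D.wt (Pi.single j k) = k • D.deg j := by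
  rw [wt, Finset.sum_eq_single j]
  · simp
  · intro i _ hi
    simp [Pi.single_eq_of_ne hi]
  · simp

lemma X_mem (j : ι) : D.X j ∈ D.gr (D.deg j) := by
  classical
  have h := D.mono_mem (Pi.single j 1)
  rwa [D.mono_single, D.wt_single, pow_one, one_smul] at h

variable {D}

lemma Laws.X_ne (h : D.Laws) (j : ι) : D.X j ≠ 0 := (h.prime j).ne_zero

section

variable [IsDomain R]

omit [IsDomain R] in
lemma Laws.xF_ne (h : D.Laws) (j : ι) : algebraMap R (FractionRing R) (D.X j) ≠ 0 := by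
  rw [Ne, FaithfulSMul.algebraMap_eq_zero_iff]
  exact h.X_ne j

omit [Algebra ℂ R] in
lemma monoZ_zero : D.monoZ 0 = 1 := by simp [monoZ]

lemma Laws.monoZ_add (h : D.Laws) (m n : ι → ℤ) :
    D.monoZ (m + n) = D.monoZ m * D.monoZ n := by
  simp only [monoZ, Pi.add_apply]
  rw [← Finset.prod_mul_distrib]
  exact Finset.prod_congr rfl fun j _ => zpow_add₀ (h.xF_ne j) _ _

lemma Laws.monoZ_ne (h : D.Laws) (m : ι → ℤ) : D.monoZ m ≠ 0 :=
  Finset.prod_ne_zero_iff.2 fun j _ => zpow_ne_zero _ (h.xF_ne j)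

lemma Laws.monoZ_neg (h : D.Laws) (m : ι → ℤ) : D.monoZ (-m) = (D.monoZ m)⁻¹ := by
  refine eq_inv_of_mul_eq_one_left ?_
  rw [← h.monoZ_add, neg_add_cancel, monoZ_zero]

lemma Laws.monoZ_sub (h : D.Laws) (m n : ι → ℤ) :
    D.monoZ (m - n) = D.monoZ m / D.monoZ n := by
  rw [sub_eq_add_neg, h.monoZ_add, h.monoZ_neg, div_eq_mul_inv]

omit [Algebra ℂ R] in
lemma monoZ_cast (n : ι → ℕ) :
    D.monoZ (fun j => (n j : ℤ)) = algebraMap R (FractionRing R) (D.mono n) := by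
  simp [monoZ, mono]

omit [Algebra ℂ R] in
lemma monoZ_single [DecidableEq ι] (j : ι) (k : ℤ) :
    D.monoZ (Pi.single j k) = algebraMap R (FractionRing R) (D.X j) ^ k := by
  rw [monoZ, Finset.prod_eq_single j]
  · simp
  · intro i _ hi
    simp [Pi.single_eq_of_ne hi]
  · simp

lemma Laws.mono_ne (h : D.Laws) (n : ι → ℕ) : D.mono n ≠ 0 :=
  Finset.prod_ne_zero_iff.2 fun j _ => pow_ne_zero _ (h.X_ne j)

omit [IsDomain R] in
lemma mem_chart {c : C} {f : FractionRing R} :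
    f ∈ D.chart c ↔ ∃ (n : ι → ℕ) (a : R), (∀ j, n j ≠ 0 → j ∈ D.u c) ∧ a ∈ D.gr (D.wt n) ∧
      f * algebraMap R (FractionRing R) (D.mono n) = algebraMap R (FractionRing R) a := Iff.rfl

end

end FCB.Cox
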