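import Pool.Agent.H30.FCB.LAD
import Pool.Agent.H30.FCB.Basic

open Matrix

namespace FCB

namespace DETX

/-- On a unimodular chart the coordinates in `u` have trivial exponent. -/
lemma ecX_u (c : ChX) (hc : c.2.2 ≠ 4) (j : CX) (hj : j ∈ uX c) : ecX c j = 0 := by
  obtain ⟨i, y, k⟩ := c
  funext l
  fin_cases k
  all_goals
    first
    | (exfalso; exact hc rfl)
    | (fin_cases y <;> cases j <;> cases l <;>
        simp_all [ecX, uX, sigmaX, vecX, degX, tw, Pi.single_apply])

lemma wt_sigma (c : ChX) (g : Fin 5 → ℤ) : DX.wtZ (sigmaX c g) = g := by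
  obtain ⟨i, y, k⟩ := c
  funext l
  rw [Cox.wtZ, sum_CX]
  simp only [Pi.add_apply, Finset.sum_apply, Pi.smul_apply, smul_eq_mul]
  fin_cases k <;> fin_cases y <;> fin_cases l <;>
    simp [DX, degX, sigmaX, vecX, tw] <;> ring

lemma sigma_supp (c : ChX) (g : Fin 5 → ℤ) (j : CX) (hj : j ∉ uX c) : sigmaX c g j = 0 := by
  obtain ⟨i, y, k⟩ := c
  fin_cases k <;> cases j <;> simp_all [uX, sigmaX, vecX]

lemma wt_ecX (c : ChX) (j : CX) : DX.wtZ (ecX c j) = 0 := by
  rw [ecX, DX.wtZ_sub, wt_sigma, DX.wtZ_single]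
  simp [DX]

lemma sum_one (n : CX → ℤ) : ∑ l, n l • (Pi.single l (1 : ℤ) : CX → ℤ) = n := by
  funext j
  rw [Finset.sum_apply, Finset.sum_eq_single j]
  · simp
  · intro l _ hl
    simp [Pi.single_eq_of_ne hl.symm]
  · simp

/-- Decomposition of an exponent in the exponents of the coordinates of a chart. -/
lemma expand (c : ChX) (hc : c.2.2 ≠ 4) (n : CX → ℤ) :
    ∑ l : {j : CX // j ∉ uX c}, n l.1 • ecX c l.1 = n - sigmaX c (DX.wtZ n) := by
  have h1 : ∑ l : {j : CX // j ∉ uX c}, n l.1 • ecX c l.1 = ∑ l, n l • ecX c l := by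
    rw [← Finset.sum_subtype (Finset.univ.filter fun j => j ∉ uX c) (by simp)
      (fun l => n l • ecX c l)]
    rw [Finset.sum_filter_of_ne]
    intro l _ hl hl'
    exact hl (by rw [ecX_u c hc l hl', smul_zero])
  rw [h1]
  simp only [ecX, smul_sub, Finset.sum_sub_distrib]
  rw [sum_one]
  congr 1
  have h2 : sigmaX c (DX.wtZ n) = sgX c (DX.wtZ n) := rfl
  rw [h2, Cox.wtZ, map_sum]
  refine Finset.sum_congr rfl fun l _ => ?_
  rw [map_zsmul]
  rfl

/-- The exponent matrix. -/
def mat (c c' : ChX) : Matrix {j : CX // j ∉ uX c} {j : CX // j ∉ uX c'} ℤ :=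
  fun l j => ecX c l.1 j.1

lemma mat_mul (c c' : ChX) (hc' : c'.2.2 ≠ 4) : mat c c' * mat c' c = 1 := by
  ext l l'
  have h := congrFun (expand c' hc' (ecX c l.1)) l'.1
  rw [wt_ecX] at h
  have h0 : sigmaX c' 0 = 0 := (sgX c').map_zero
  rw [h0, sub_zero, Finset.sum_apply] at h
  rw [mul_apply]
  have h3 : ∀ j : {j : CX // j ∉ uX c'}, mat c c' l j * mat c' c j l' =
    (ecX c l.1 j.1 • ecX c' j.1) l'.1 := fun _ => rfl
  rw [Finset.sum_congr rfl fun j _ => h3 j, h, ecX, Pi.sub_apply, sigma_supp c _ _ l'.2, sub_zero]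
  by_cases hl : l = l'
  · subst hl
    simp
  · have : (l'.1 : CX) ≠ l.1 := fun h => hl (Subtype.ext h.symm)
    rw [one_apply_ne hl, Pi.single_eq_of_ne this]

end DETX

open DETX in
theorem detx : S_DETX := by
  intro K _ _ χ h0 hmul hne hrel c c' hc hc' i i' n e e' b b' hb hb' hk
  -- logarithmic differentials
  set dl : (CX → ℤ) → Ω[K⁄ℂ] := fun m => (χ m)⁻¹ • KaehlerDifferential.D ℂ K (χ m) with hdl
  have dl_add : ∀ m n, DX.wtZ m = 0 → DX.wtZ n = 0 → dl (m + n) = dl m + dl n := by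
    intro m n hm hn
    have h1 := hne m hm
    have h2 := hne n hn
    simp only [hdl]
    rw [hmul m n hm hn, Derivation.leibniz, smul_add, smul_smul, smul_smul]
    rw [mul_inv, add_comm]
    congr 2
    · field_simp
    · field_simp
  have dl_zero : dl 0 = 0 := by
    simp only [hdl]
    rw [h0]
    simp
  have wsum : ∀ (T : Type) (s : Finset T) (f : T → (CX → ℤ)), (∀ t ∈ s, DX.wtZ (f t) = 0) →
      DX.wtZ (∑ t ∈ s, f t) = 0 ∧ dl (∑ t ∈ s, f t) = ∑ t ∈ s, dl (f t) := by
    classical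
    intro T s f hf
    induction s using Finset.induction_on with
    | empty => simpa using ⟨DX.wtZ_zero, dl_zero⟩
    | insert a s ha ih =>
      obtain ⟨h1, h2⟩ := ih fun t ht => hf t (Finset.mem_insert_of_mem ht)
      rw [Finset.sum_insert ha, Finset.sum_insert ha, DX.wtZ_add, h1,
        hf a (Finset.mem_insert_self _ _), dl_add _ _ (hf a (Finset.mem_insert_self _ _)) h1, h2]
      simp
  have dl_neg : ∀ m, DX.wtZ m = 0 → dl (-m) = -dl m := by
    intro m hm
    have h := dl_add m (-m) hm (by rw [DX.wtZ_neg, hm, neg_zero])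
    rw [add_neg_cancel, dl_zero] at h
    exact (neg_eq_of_add_eq_zero_right h.symm).symm
  have dl_zsmul : ∀ (z : ℤ) m, DX.wtZ m = 0 → DX.wtZ (z • m) = 0 ∧ dl (z • m) = z • dl m := by
    intro z m hm
    induction z using Int.induction_on with
    | zero => simpa using ⟨DX.wtZ_zero, dl_zero⟩
    | succ k ih =>
      rw [add_smul, one_smul, DX.wtZ_add, dl_add _ _ ih.1 hm, ih.1, ih.2, hm, add_smul, one_smul]
      simp
    | pred k ih =>
      have h3 : DX.wtZ (-m) = 0 := by rw [DX.wtZ_neg, hm, neg_zero]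
      rw [sub_smul, one_smul, sub_eq_add_neg, DX.wtZ_add, dl_add _ _ ih.1 h3, ih.1, ih.2, h3,
        dl_neg m hm, sub_smul, one_smul, sub_eq_add_neg]
      simp
  have dl_exp : ∀ m, DX.wtZ m = 0 →
      dl m = ∑ l : {j : CX // j ∉ uX c'}, (m l.1 : K) • dl (ecX c' l.1) := by
    intro m hm
    have h1 := expand c' hc' m
    have h0' : sigmaX c' 0 = 0 := (sgX c').map_zero
    rw [hm, h0', sub_zero] at h1
    conv_lhs => rw [← h1]
    rw [(wsum _ _ _ fun l _ => (dl_zsmul _ _ (wt_ecX c' l.1)).1).2]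
    refine Finset.sum_congr rfl fun l _ => ?_
    rw [(dl_zsmul _ _ (wt_ecX c' l.1)).2, Int.cast_smul_eq_zsmul]
  have wF : ∀ k, DX.wtZ (expF k) = ![0, 0, 0, 0, 2] := by
    intro k
    fin_cases k <;> simp only [expF, DX.wtZ_add, DX.wtZ_single] <;> funext l <;>
      fin_cases l <;> simp [DX, degX]
  have wF0 : ∀ k, DX.wtZ (expF k - expF 0) = 0 := by
    intro k
    rw [DX.wtZ_sub, wF, wF, sub_self]
  -- rescaled bases
  set w : Fin n → Kˣ := fun l => Units.mk0 (χ (ecX c (e l).1.1))⁻¹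
    (inv_ne_zero (hne _ (wt_ecX c _))) with hw
  set w' : Fin n → Kˣ := fun l => Units.mk0 (χ (ecX c' (e' l).1.1))⁻¹
    (inv_ne_zero (hne _ (wt_ecX c' _))) with hw'
  have hrel1 : ∑ j : {j : CX // j ∉ uX c'}, kap χ j.1 • dl (ecX c' j.1) = 0 := by
    have h1 : ∀ j : {j : CX // j ∉ uX c'}, kap χ j.1 • dl (ecX c' j.1) =
        ∑ k, (cF k • χ (expF k - expF 0)) • ((expF k j.1 : K) • dl (ecX c' j.1)) := by
      intro j
      rw [kap, Finset.sum_smul]
      refine Finset.sum_congr rfl fun k _ => ?_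
      rw [← mul_smul (cF k • χ (expF k - expF 0)) (expF k j.1 : K) (dl (ecX c' j.1))]
      congr 1
      rw [Algebra.smul_def, Algebra.smul_def]
      ring
    rw [Finset.sum_congr rfl fun j _ => h1 j, Finset.sum_comm]
    have h2 : ∀ k, ∑ j : {j : CX // j ∉ uX c'},
        (cF k • χ (expF k - expF 0)) • ((expF k j.1 : K) • dl (ecX c' j.1)) =
        cF k • KaehlerDifferential.D ℂ K (χ (expF k - expF 0)) +
        (cF k • χ (expF k - expF 0)) •
          ∑ j : {j : CX // j ∉ uX c'}, (expF 0 j.1 : K) • dl (ecX c' j.1) := by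
      intro k
      rw [← Finset.smul_sum]
      have h3 : ∑ j : {j : CX // j ∉ uX c'}, (expF k j.1 : K) • dl (ecX c' j.1) =
          dl (expF k - expF 0) +
            ∑ j : {j : CX // j ∉ uX c'}, (expF 0 j.1 : K) • dl (ecX c' j.1) := by
        rw [dl_exp _ (wF0 k), ← Finset.sum_add_distrib]
        refine Finset.sum_congr rfl fun j _ => ?_
        rw [← add_smul]
        simp
      rw [h3, smul_add]
      congr 1
      simp only [hdl]
      rw [smul_smul, smul_mul_assoc, mul_inv_cancel₀ (hne _ (wF0 k)), smul_assoc, one_smul]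
    rw [Finset.sum_congr rfl fun k _ => h2 k, Finset.sum_add_distrib, ← Finset.sum_smul, hrel,
      zero_smul, add_zero]
    have h4 : ∑ k, cF k • KaehlerDifferential.D ℂ K (χ (expF k - expF 0)) =
        KaehlerDifferential.D ℂ K (∑ k, cF k • χ (expF k - expF 0)) := by
      rw [map_sum]
      refine Finset.sum_congr rfl fun k _ => ?_
      rw [Derivation.map_smul]
    rw [h4, hrel, map_zero]
  have hcomp : ∀ j : {j : CX // j ∉ uX c'},
      ∑ l : {j : CX // j ∉ uX c}, kap χ l.1 * (mat c c' l j : K) = kap χ j.1 := by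
    intro j
    have h1 : ∀ l : {j : CX // j ∉ uX c}, kap χ l.1 * (mat c c' l j : K) =
        ∑ k, (cF k • χ (expF k - expF 0)) * (expF k l.1 * ecX c l.1 j.1 : ℤ) := by
      intro l
      rw [kap, Finset.sum_mul]
      refine Finset.sum_congr rfl fun k _ => ?_
      rw [Algebra.smul_def, Algebra.smul_def, mat]
      push_cast
      ring
    rw [Finset.sum_congr rfl fun l _ => h1 l, Finset.sum_comm]
    have h2 : ∀ k, ∑ l : {j : CX // j ∉ uX c},
        (cF k • χ (expF k - expF 0)) * ((expF k l.1 * ecX c l.1 j.1 : ℤ) : K) =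
        cF k • ((expF k j.1 : K) * χ (expF k - expF 0)) -
        (cF k • χ (expF k - expF 0)) * (sigmaX c ![0, 0, 0, 0, 2] j.1 : K) := by
      intro k
      rw [← Finset.mul_sum, ← Int.cast_sum]
      have h3 := congrFun (expand c hc (expF k)) j.1
      rw [Finset.sum_apply, wF, Pi.sub_apply] at h3
      have h5 : ∑ l : {j : CX // j ∉ uX c}, expF k l.1 * ecX c l.1 j.1 =
        expF k j.1 - sigmaX c ![0, 0, 0, 0, 2] j.1 := by
        rw [← h3]
        rfl
      rw [h5]
      push_cast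
      rw [Algebra.smul_def, Algebra.smul_def]
      ring
    rw [Finset.sum_congr rfl fun k _ => h2 k, Finset.sum_sub_distrib, ← Finset.sum_mul, hrel,
      zero_mul, sub_zero, kap]
  have hlad := lad K (Ω[K⁄ℂ]) {j : CX // j ∉ uX c} {j : CX // j ∉ uX c'} n
    (fun l => dl (ecX c l.1)) (fun l => dl (ecX c' l.1)) (mat c c') (mat c' c)
    (fun l => kap χ l.1) (fun l => kap χ l.1) i i' e e' (b.unitsSMul w) (b'.unitsSMul w')
    (mat_mul c c' hc') (mat_mul c' c hc) (fun l => dl_exp _ (wt_ecX c l.1))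
    hrel1 hcomp
    (by
      intro l
      rw [Module.Basis.unitsSMul_apply, hb]
      rfl)
    (by
      intro l
      rw [Module.Basis.unitsSMul_apply, hb']
      rfl)
    hk
  have hdet : (b'.unitsSMul w').det (b.unitsSMul w) =
      (∏ l, χ (ecX c' (e' l).1.1)) * (∏ l, χ (ecX c (e l).1.1))⁻¹ * b'.det b := by
    have h1 : (⇑(b.unitsSMul w) : Fin n → Ω[K⁄ℂ]) = fun l => (w l : K) • b l := by
      funext l
      rw [Module.Basis.unitsSMul_apply]
      rfl
    rw [h1, Module.Basis.det_unitsSMul, AlternatingMap.smul_apply, AlternatingMap.map_smul_univ,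
      smul_eq_mul, smul_eq_mul, ← mul_assoc]
    congr 2
    · rw [← Finset.prod_inv_distrib, Units.coe_prod]
      simp [hw']
    · rw [← Finset.prod_inv_distrib]
      rfl
  have hprod : (∏ l, χ (ecX c (e l).1.1)) ≠ 0 :=
    Finset.prod_ne_zero_iff.2 fun l _ => hne _ (wt_ecX c _)
  rw [hdet] at hlad
  rcases hlad with h | h
  · left
    rw [← h]
    field_simp
  · right
    rw [← neg_mul, ← h]
    field_simp

end FCB
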