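import Pool.Agent.H30.FCB.StB

/-!
Statements C: the Cox data of `X` and `Y` satisfy the laws; smoothness.
-/

open MvPolynomial AlgebraicGeometry CategoryTheory

namespace FCB

/-- SQF: `x² + G` is prime if the polynomial `G` does not involve `x` and has degree one in some
variable `z`; `G` is linear in `z` with nonzero coefficient `A`. -/
def S_SQF : Prop :=
  ∀ (ι : Type) [Finite ι] (x z : ι) (A B : MvPolynomial ι ℂ), x ≠ z →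
    x ∉ A.vars → z ∉ A.vars → x ∉ B.vars → z ∉ B.vars → A ≠ 0 →
    Prime (X x ^ 2 + (A * X z + B))

/-- XDOM: the Cox ring of `X` is a domain. -/
def S_XDOM : Prop := IsDomain RX

/-- XPRI: the coordinates of `X` are prime in the Cox ring. -/
def S_XPRI : Prop := ∀ j, Prime (DX.X j)

/-- XNAS: the coordinates of `X` are pairwise not associated. -/
def S_XNAS : Prop := ∀ i j, i ≠ j → ¬ Associated (DX.X i) (DX.X j)

/-- XUFD: the Cox ring of `X` is factorial (Nagata's criterion with the primes `a` and `b`). -/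
def S_XUFD : Prop := ∀ [IsDomain RX], UniqueFactorizationMonoid RX

/-- XGRA: the Cox ring of `X` is graded. -/
def S_XGRA : Prop :=
  (∀ a : RX, ∃ s : (Fin 5 → ℤ) →₀ RX, (∀ g, s g ∈ DX.gr g) ∧ (s.sum fun _ x => x) = a) ∧
  (∀ s : (Fin 5 → ℤ) →₀ RX, (∀ g, s g ∈ DX.gr g) → (s.sum fun _ x => x) = 0 → s = 0)

/-- XNUM: the numerical laws for `X`. -/
def S_XNUM : Prop :=
  (∃ φ : (Fin 5 → ℤ) →+ ℤ, ∀ j, 0 < φ (DX.deg j)) ∧
  (∀ c, 0 < DX.d c) ∧ (∀ c, (DX.u c).Nonempty) ∧ (∀ c j, DX.ν c j ≠ 0 ↔ j ∈ DX.u c) ∧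
  (∀ c, DX.wt (DX.ν c) = DX.d c • DX.L) ∧ (∀ c g j, DX.σ c g j ≠ 0 → j ∈ DX.u c) ∧
  (∀ c g, DX.wtZ (DX.σ c g) = g) ∧ (∀ j, ∃ c, j ∉ DX.u c)

/-- XCOV: the charts of `X` cover. -/
def S_XCOV : Prop := ∀ V : Set RX, DX.IsVan V → ∃ c, ∀ j ∈ DX.u c, DX.X j ∉ V

/-- YALG: the algebraic laws for `Y`. -/
def S_YALG : Prop :=
  (∀ a : RY, ∃ s : (Fin 3 → ℤ) →₀ RY, (∀ g, s g ∈ DY.gr g) ∧ (s.sum fun _ x => x) = a) ∧
  (∀ s : (Fin 3 → ℤ) →₀ RY, (∀ g, s g ∈ DY.gr g) → (s.sum fun _ x => x) = 0 → s = 0) ∧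
  (∀ j, Prime (DY.X j)) ∧ (∀ i j, i ≠ j → ¬ Associated (DY.X i) (DY.X j))

/-- YNUM: the numerical laws for `Y`. -/
def S_YNUM : Prop :=
  (∃ φ : (Fin 3 → ℤ) →+ ℤ, ∀ j, 0 < φ (DY.deg j)) ∧
  (∀ c, 0 < DY.d c) ∧ (∀ c, (DY.u c).Nonempty) ∧ (∀ c j, DY.ν c j ≠ 0 ↔ j ∈ DY.u c) ∧
  (∀ c, DY.wt (DY.ν c) = DY.d c • DY.L) ∧ (∀ c g j, DY.σ c g j ≠ 0 → j ∈ DY.u c) ∧
  (∀ c g, DY.wtZ (DY.σ c g) = g) ∧ (∀ j, ∃ c, j ∉ DY.u c)

/-- YCOV: the charts of `Y` cover. -/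
def S_YCOV : Prop := ∀ V : Set RY, DY.IsVan V → ∃ c, ∀ j ∈ DY.u c, DY.X j ∉ V

/-- ORIG: the charts `(0, 0, 0)` of `X` and of `Y` are unimodular and contain the origin. -/
def S_ORIG : Prop :=
  (∃ ε : RX →ₐ[ℂ] ℂ, DX.IsOrigin (0, 0, 0) ε) ∧ (∃ ε : RY →ₐ[ℂ] ℂ, DY.IsOrigin (0, 0, 0) ε)

/-- SMH: localisations of hypersurface rings are smooth when the Jacobian ideal becomes
trivial. -/
def S_SMH : Prop :=
  ∀ (ι : Type) [Finite ι] (F m : MvPolynomial ι ℂ) (B : Type) [CommRing B]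
    [Algebra (MvPolynomial ι ℂ ⧸ Ideal.span {F}) B] [Algebra ℂ B]
    [IsScalarTower ℂ (MvPolynomial ι ℂ ⧸ Ideal.span {F}) B],
    IsLocalization.Away (Ideal.Quotient.mk (Ideal.span {F}) m) B →
    (∃ k : ℕ, m ^ k ∈ Ideal.span ({F} ∪ Set.range fun j => pderiv j F)) → Algebra.Smooth ℂ B

/-- XJAC: the Jacobian ideal of the equation of `X` is trivial on every chart. -/
def S_XJAC : Prop :=
  ∀ c : ChX, ∃ k : ℕ, (∏ j ∈ uX c, (X j : MvPolynomial CX ℂ)) ^ k ∈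
    Ideal.span ({FX} ∪ Set.range fun j => pderiv j FX)

/-- RETR: the chart ring is a retract of the localised Cox ring, hence smooth if the latter
is. -/
def S_RETR : Prop :=
  ∀ (R ι C : Type) (r : ℕ) [CommRing R] [IsDomain R] [Algebra ℂ R] [Fintype ι]
    (D : Cox R ι C r), D.Laws → ∀ c : C,
    Algebra.Smooth ℂ (Localization.Away (∏ j ∈ D.u c, D.X j)) → Algebra.Smooth ℂ (D.chart c)

/-- SMXY: all chart rings of `X` and `Y` are smooth. -/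
def S_SMXY : Prop :=
  (∀ [IsDomain RX], DX.Laws → ∀ c, Algebra.Smooth ℂ (DX.chart c)) ∧
  (DY.Laws → ∀ c, Algebra.Smooth ℂ (DY.chart c))

end FCB
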