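import Pool.Agent.H30.FCB.FIN5
import Pool.Agent.H12.FCB.HT1
import Pool.Agent.H12.FCB.HT1C
import Pool.Agent.H17.FCB.CLS
import Pool.Agent.H17.FCB.DIVH
import Pool.Agent.H17.FCB.EFFH
import Pool.Agent.H22.FCB.PRSX
import Pool.Agent.H23.FCB.CHEL
import Pool.Agent.H23.FCB.CHFG
import Pool.Agent.H23.FCB.SMXY
import Pool.Agent.H23.FCB.VEFG
import Pool.Agent.H23.FCB.YALG
import Pool.Agent.H2.FCB.XPRI
import Pool.Agent.H30.FCB.DETX
import Pool.Agent.H32.FCB.XCAN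
import Pool.Agent.H32.FCB.YCAN
import Pool.Agent.H33.FCB.CANU
import Pool.Agent.H33.FCB.CONE
import Pool.Agent.H33.FCB.FIB3
import Pool.Agent.H33.FCB.SMOC
import Pool.Agent.H38.FCB.ORD
import Pool.Agent.H38.FCB.PRE1
import Pool.Agent.H38.FCB.PRE2
import Pool.Agent.H38.FCB.PRE3
import Pool.Agent.H4.FCB.KAPP
import Pool.Agent.H4.FCB.ORIG
import Pool.Agent.H4.FCB.PCOV
import Pool.Agent.H4.FCB.PHIX
import Pool.Agent.H4.FCB.PPRO
import Pool.Agent.H4.FCB.YCOV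
import Pool.Agent.H48.FCB.KHYP
import Pool.Agent.H48.FCB.KPOL
import Pool.Agent.H48.FCB.LADY
import Pool.Agent.H48.FCB.LOCC
import Pool.Agent.H48.FCB.X1CH
import Pool.Agent.H5.FCB.AWCH
import Pool.Agent.H5.FCB.EMBH
import Pool.Agent.H5.FCB.PINT
import Pool.Agent.H50.FCB.CONB
import Pool.Agent.H50.FCB.MORG
import Pool.Agent.H58.FCB.AMP
import Pool.Agent.H58.FCB.FIBG
import Pool.Agent.H58.FCB.LINE
import Pool.Agent.H58.FCB.PICN
import Pool.Agent.H61.FCB.SMH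
import Pool.Agent.H61.FCB.XJAC
import Pool.Agent.H61.FCB.XNUM
import Pool.Agent.H61.FCB.YNUM
import Pool.Agent.H62.FCB.PRSY
import Pool.Agent.H62.FCB.RETR
import Pool.Agent.H62.FCB.XDOM
import Pool.Agent.H66.FCB.PMOD
import Pool.Agent.H79.FCB.PREI
import Pool.Agent.H83.FCB.CONA
import Pool.Agent.H83.FCB.FIB4
import Pool.Agent.H83.FCB.PD1
import Pool.Agent.H83.FCB.PD2
import Pool.Agent.H83.FCB.PD3
import Pool.Agent.H83.FCB.PD4
import Pool.Agent.H84.FCB.SQF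
import Pool.Agent.H84.FCB.XGRA
import Pool.Agent.H84.FCB.XNAS
import Pool.Agent.H84.FCB.XUFD
import Pool.Agent.H85.FCB.HFAC
import Pool.Agent.H85.FCB.HPRI
import Pool.Agent.H85.FCB.HUNI
import Pool.Agent.H87.FCB.XCOV

/-!
Assembly of the modules of project FCB.
-/

open AlgebraicGeometry CategoryTheory

namespace FCB

theorem answer :
    ∃ (X Y : SmoothProjVar) (f : X.X ⟶ Y.X), IsFanoConicBundle X Y f ∧
      picardNumber X.X = 5 ∧ picardNumber Y.X = 3 ∧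
      (∃ K : WeilDiv Y.X, IsCanonical Y.str K) ∧
      ∀ K : WeilDiv Y.X, IsCanonical Y.str K → ¬ IsAmple (-K) := by
  have hSQF : S_SQF := sqf
  have hXPRI : S_XPRI := xpri hSQF
  have hXDOM : S_XDOM := xdom hSQF
  have hXUFD : S_XUFD := xufd hXPRI
  have hXGRA : S_XGRA := xgra
  have hXNAS : S_XNAS := xnas
  have hXNUM : S_XNUM := xnum
  have hXCOV : S_XCOV := xcov
  have hYALG : S_YALG := yalg
  have hYNUM : S_YNUM := ynum
  have hYCOV : S_YCOV := ycov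
  have hEMBH : S_EMBH := embh
  have hAWCH : S_AWCH := awch
  have hPINT : S_PINT := pint
  have hHUNI : S_HUNI := huni
  have hVEFG : S_VEFG := vefg hHUNI
  have hPPRO : S_PPRO := ppro hVEFG
  have hPCOV : S_PCOV := pcov hHUNI
  have hPMOD : S_PMOD := pmod hEMBH hAWCH hPINT hPPRO hPCOV
  have hHFAC : S_HFAC := hfac
  have hCHEL : S_CHEL := chel
  have hHPRI : S_HPRI := hpri hHFAC
  have hHT1 : S_HT1 := ht1 hCHEL hHPRI hHUNI hHFAC
  have hCHFG : S_CHFG := chfg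
  have hHT1C : S_HT1C := ht1c hCHEL hCHFG hHFAC
  have hPRE1 : S_PRE1 := pre1
  have hPRE2 : S_PRE2 := pre2
  have hPD1 : S_PD1 := pd1 hHFAC hHUNI hCHEL hHT1 hHT1C hPRE1 hPRE2
  have hPD2 : S_PD2 := pd2 hHFAC hHUNI hCHEL hHT1C hPRE1 hPRE2
  have hPD3 : S_PD3 := pd3 hHFAC hHUNI hCHEL hPRE1 hPRE2
  have hORD : S_ORD := ord hPRE1 hPRE2
  have hPD4 : S_PD4 := pd4 hHFAC hHUNI hCHEL hPD3 hORD
  have hPRE3 : S_PRE3 := pre3 hCHEL
  have hDIVH : S_DIVH := divh hHFAC hHPRI hHUNI hPD2 hPD3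
  have hEFFH : S_EFFH := effh hPD3
  have hCLS : S_CLS := cls hHFAC hHUNI hPD1 hPD2 hPD3 hPD4 hPRE3 hDIVH hEFFH
  have hAMP : S_AMP := amp hPRE1 hPRE2 hPD1 hPD2 hPD3 hCHEL
  have hCONE : S_CONE := cone hHPRI hPD2 hPD3 hPRE1 hPRE2 hCHEL
  have hLINE : S_LINE := line
  have hPICN : S_PICN := picn hAMP hCONE hLINE
  have hORIG : S_ORIG := orig
  have hCANU : S_CANU := canu
  have hSMH : S_SMH := smh
  have hXJAC : S_XJAC := xjac
  have hRETR : S_RETR := retr hCHFG hCHEL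
  have hSMXY : S_SMXY := smxy hSMH hXJAC hRETR
  have hSMOC : S_SMOC := smoc
  have hPRSX : S_PRSX := prsx
  have hKHYP : S_KHYP := khyp
  have hX1CH : S_X1CH := x1ch hPD1 hPD3 hPRSX
  have hLOCC : S_LOCC := locc
  have hDETX : S_DETX := detx
  have hKAPP : S_KAPP := kapp
  have hXCAN : S_XCAN := xcan hPRSX hKHYP hX1CH hLOCC hDETX hKAPP hPD1 hPD2 hPD3 hPD4 hPRE1 hPRE3
  have hPRSY : S_PRSY := prsy hCHEL hYALG hYNUM hYCOV
  have hKPOL : S_KPOL := kpol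
  have hLADY : S_LADY := lady
  have hYCAN : S_YCAN := ycan hPRSY hKPOL hLOCC hLADY hPD1 hPD2 hPD3 hPD4 hPRE1 hPRE3
  have hPHIX : S_PHIX := phix
  have hMORG : S_MORG := morg
  have hPREI : S_PREI := prei hPRE1 hCHEL
  have hCONA : S_CONA := cona hHFAC hHUNI
  have hCONB : S_CONB := conb
  have hFIB3 : S_FIB3 := fib3 hPRSX hPRSY
  have hFIB4 : S_FIB4 := fib4 hKAPP
  have hFIBG : S_FIBG := fibg hPRE1 hPRE2
  exact fina5 hXDOM hXUFD hXGRA hXPRI hXNAS hXNUM hXCOV hYALG hYNUM hYCOV hPMOD hCLS hAMP hCONE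
    hPICN hORIG hCANU hSMXY hSMOC hXCAN hYCAN hPHIX hMORG hPREI hCONA hCONB hFIB3 hFIB4 hFIBG

end FCB
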