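import Pool.Agent.H30.FCB.Defs

/-!
The concrete Cox data: `DX` for the Fano variety `X` (dimension 12, Picard number 5) and `DY`
for the base `Y` (dimension 11, Picard number 3).
-/

open MvPolynomial

namespace FCB

/-- Coordinates of `X`. -/
inductive CX
  | t (i : Fin 9) | y (j : Fin 3) | z | w | v | a | b | x
  deriving DecidableEq, Fintype

/-- Coordinates of `Y`. -/
inductive CY
  | t (i : Fin 9) | y (j : Fin 3) | z | o
  deriving DecidableEq, Fintype

/-- Degrees of the coordinates of `X` in `ℤ ^ 5`, basis `H, ξ, V, W, N`. -/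
def degX : CX → (Fin 5 → ℤ)
  | .t _ => ![1, 0, 0, 0, 0]
  | .y 0 => ![0, 1, 0, 0, 0]
  | .y 1 => ![-4, 1, 0, 0, 0]
  | .y 2 => ![-2, 1, 0, 0, 0]
  | .z => ![-4, 2, 1, 1, 0]
  | .w => ![0, 0, 0, 1, 0]
  | .v => ![0, 0, 1, 0, 0]
  | .a => ![2, -1, 0, -1, 1]
  | .b => ![2, -1, -1, 0, 1]
  | .x => ![0, 0, 0, 0, 1]

/-- Degrees of the coordinates of `Y` in `ℤ ^ 3`, basis `H, ξ, η`. -/
def degY : CY → (Fin 3 → ℤ)
  | .t _ => ![1, 0, 0]
  | .y 0 => ![0, 1, 0]
  | .y 1 => ![-4, 1, 0]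
  | .y 2 => ![-2, 1, 0]
  | .z => ![0, 0, 1]
  | .o => ![4, -2, 1]

/-- `e = y₀ y₁ - y₂²` -/
noncomputable def eP {ι : Type} (y : Fin 3 → ι) : MvPolynomial ι ℂ :=
  X (y 0) * X (y 1) - X (y 2) ^ 2

/-- `G = 2 z a b + e (w² a² + v² b²)` -/
noncomputable def GX : MvPolynomial CX ℂ :=
  2 * X .z * X .a * X .b + eP CX.y * (X .w ^ 2 * X .a ^ 2 + X .v ^ 2 * X .b ^ 2)

/-- The equation `x² + G` of `X`. -/
noncomputable def FX : MvPolynomial CX ℂ := X .x ^ 2 + GX

/-- The Cox ring of `X`. -/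
abbrev RX : Type := MvPolynomial CX ℂ ⧸ Ideal.span {FX}

/-- The Cox ring of `Y`. -/
abbrev RY : Type := MvPolynomial CY ℂ

/-- The twist of `y j`. -/
def tw (j : Fin 3) : ℕ := ![0, 4, 2] j

/-- Charts of `X`: `(i, j, k)` where `t i` and `y j` are invertible, and moreover
`w, v, a` for `k = 0`; `w, v, b` for `k = 1`; `z, v, b` for `k = 2`; `z, w, a` for `k = 3`;
`z, a, b, x` for `k = 4`. -/
abbrev ChX : Type := Fin 9 × Fin 3 × Fin 5

/-- Charts of `Y`: `(i, j, 0)` where `t i, y j, o` are invertible and `(i, j, 1)` where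
`t i, y j, z` are invertible. -/
abbrev ChY : Type := Fin 9 × Fin 3 × Fin 2

def uX (c : ChX) : Finset CX :=
  {CX.t c.1, CX.y c.2.1} ∪
    (match c.2.2 with
      | 0 => {CX.w, CX.v, CX.a}
      | 1 => {CX.w, CX.v, CX.b}
      | 2 => {CX.z, CX.v, CX.b}
      | 3 => {CX.z, CX.w, CX.a}
      | 4 => {CX.z, CX.a, CX.b, CX.x})

def uY (c : ChY) : Finset CY :=
  {CY.t c.1, CY.y c.2.1} ∪ (match c.2.2 with | 0 => {CY.o} | 1 => {CY.z})

/-- The function on the coordinates of `X` with the given values at `t i`, `y j` and the other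
coordinates. -/
def vecX {A : Type} [Zero A] (i : Fin 9) (j : Fin 3) (t y z w v a b x : A) : CX → A
  | .t i' => if i' = i then t else 0
  | .y j' => if j' = j then y else 0
  | .z => z
  | .w => w
  | .v => v
  | .a => a
  | .b => b
  | .x => x

def vecY {A : Type} [Zero A] (i : Fin 9) (j : Fin 3) (t y z o : A) : CY → A
  | .t i' => if i' = i then t else 0
  | .y j' => if j' = j then y else 0
  | .z => z
  | .o => o

def nuX (c : ChX) : CX → ℕ :=
  match c.2.2 with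
  | 0 => vecX c.1 c.2.1 (1 + 4 * tw c.2.1) 4 0 2 1 1 0 0
  | 1 => vecX c.1 c.2.1 (1 + 4 * tw c.2.1) 4 0 1 2 0 1 0
  | 2 => vecX c.1 c.2.1 (5 + 2 * tw c.2.1) 2 1 0 1 0 1 0
  | 3 => vecX c.1 c.2.1 (5 + 2 * tw c.2.1) 2 1 1 0 1 0 0
  | 4 => vecX c.1 c.2.1 (21 + 3 * tw c.2.1) 3 4 0 0 1 1 1

def nuY (c : ChY) : CY → ℕ :=
  match c.2.2 with
  | 0 => vecY c.1 c.2.1 (1 + 3 * tw c.2.1) 3 0 1
  | 1 => vecY c.1 c.2.1 (5 + tw c.2.1) 1 1 0

/-- The section of the degree map on the chart `c` of `X`. -/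
def sigmaX (c : ChX) (g : Fin 5 → ℤ) : CX → ℤ :=
  match c.2.2 with
  | 0 => vecX c.1 c.2.1 (g 0 - 2 * g 4 + tw c.2.1 * (g 1 + g 4)) (g 1 + g 4)
      0 (g 3 + g 4) (g 2) (g 4) 0 0
  | 1 => vecX c.1 c.2.1 (g 0 - 2 * g 4 + tw c.2.1 * (g 1 + g 4)) (g 1 + g 4)
      0 (g 3) (g 2 + g 4) 0 (g 4) 0
  | 2 => vecX c.1 c.2.1 (g 0 + 4 * g 3 - 2 * g 4 + tw c.2.1 * (g 1 - 2 * g 3 + g 4))
      (g 1 - 2 * g 3 + g 4) (g 3) 0 (g 2 - g 3 + g 4) 0 (g 4) 0
  | 3 => vecX c.1 c.2.1 (g 0 + 4 * g 2 - 2 * g 4 + tw c.2.1 * (g 1 - 2 * g 2 + g 4))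
      (g 1 - 2 * g 2 + g 4) (g 2) (g 3 - g 2 + g 4) 0 (g 4) 0 0
  | 4 => vecX c.1 c.2.1 (g 0 + 2 * (g 2 + g 3) + tw c.2.1 * (g 1 - (g 2 + g 3)))
      (g 1 - (g 2 + g 3)) (g 2) 0 0 (g 2 - g 3) 0 (g 4 - g 2 + g 3)

def sigmaY (c : ChY) (g : Fin 3 → ℤ) : CY → ℤ :=
  match c.2.2 with
  | 0 => vecY c.1 c.2.1 (g 0 - 4 * g 2 + tw c.2.1 * (g 1 + 2 * g 2)) (g 1 + 2 * g 2) 0 (g 2)
  | 1 => vecY c.1 c.2.1 (g 0 + tw c.2.1 * g 1) (g 1) (g 2) 0

lemma sum_CX {M : Type} [AddCommMonoid M] (f : CX → M) :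
    ∑ j, f j = (∑ i, f (.t i)) + ((∑ j, f (.y j)) +
      (f .z + (f .w + (f .v + (f .a + (f .b + f .x)))))) := by
  let e : CX ≃ (Fin 9 ⊕ (Fin 3 ⊕ Fin 6)) :=
    { toFun := fun j => match j with
        | .t i => .inl i
        | .y j => .inr (.inl j)
        | .z => .inr (.inr 0)
        | .w => .inr (.inr 1)
        | .v => .inr (.inr 2)
        | .a => .inr (.inr 3)
        | .b => .inr (.inr 4)
        | .x => .inr (.inr 5)
      invFun := fun j => match j with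
        | .inl i => .t i
        | .inr (.inl j) => .y j
        | .inr (.inr 0) => .z
        | .inr (.inr 1) => .w
        | .inr (.inr 2) => .v
        | .inr (.inr 3) => .a
        | .inr (.inr 4) => .b
        | .inr (.inr 5) => .x
      left_inv := by rintro (i | j | _ | _ | _ | _ | _ | _) <;> rfl
      right_inv := by
        rintro (i | j | k)
        · rfl
        · rfl
        · fin_cases k <;> rfl }
  rw [← Equiv.sum_comp e.symm, Fintype.sum_sum_type, Fintype.sum_sum_type]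
  congr 2
  simp only [Fin.sum_univ_succ]
  simp [e]

lemma sum_CY {M : Type} [AddCommMonoid M] (f : CY → M) :
    ∑ j, f j = (∑ i, f (.t i)) + ((∑ j, f (.y j)) + (f .z + f .o)) := by
  let e : CY ≃ (Fin 9 ⊕ (Fin 3 ⊕ Fin 2)) :=
    { toFun := fun j => match j with
        | .t i => .inl i
        | .y j => .inr (.inl j)
        | .z => .inr (.inr 0)
        | .o => .inr (.inr 1)
      invFun := fun j => match j with
        | .inl i => .t i
        | .inr (.inl j) => .y j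
        | .inr (.inr 0) => .z
        | .inr (.inr 1) => .o
      left_inv := by rintro (i | j | _ | _) <;> rfl
      right_inv := by
        rintro (i | j | k)
        · rfl
        · rfl
        · fin_cases k <;> rfl }
  rw [← Equiv.sum_comp e.symm, Fintype.sum_sum_type, Fintype.sum_sum_type]
  congr 2
  simp only [Fin.sum_univ_succ]
  simp [e]

/-- `sigmaX c` as an additive map. -/
def sgX (c : ChX) : (Fin 5 → ℤ) →+ (CX → ℤ) where
  toFun := sigmaX c
  map_zero' := by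
    obtain ⟨i, j, k⟩ := c
    funext l
    fin_cases k <;> cases l <;> simp [sigmaX, vecX]
  map_add' := by
    intro g h
    obtain ⟨i, j, k⟩ := c
    funext l
    fin_cases k <;> cases l <;> simp only [sigmaX, vecX, Pi.add_apply] <;> (try split_ifs) <;>
      (try ring)

/-- `sigmaY c` as an additive map. -/
def sgY (c : ChY) : (Fin 3 → ℤ) →+ (CY → ℤ) where
  toFun := sigmaY c
  map_zero' := by
    obtain ⟨i, j, k⟩ := c
    funext l
    fin_cases k <;> cases l <;> simp [sigmaY, vecY]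
  map_add' := by
    intro g h
    obtain ⟨i, j, k⟩ := c
    funext l
    fin_cases k <;> cases l <;> simp only [sigmaY, vecY, Pi.add_apply] <;> (try split_ifs) <;>
      (try ring)

/-- The Cox data of `X`. -/
noncomputable def DX : Cox RX CX ChX 5 where
  X := fun j => Ideal.Quotient.mk _ (X j)
  deg := degX
  L := ![3, 3, 1, 1, 1]
  u := uX
  d := fun c => if c.2.2 = 4 then 3 else 1
  ν := nuX
  σ := sgX

/-- The Cox data of `Y`. -/
noncomputable def DY : Cox RY CY ChY 3 where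
  X := fun j => X j
  deg := degY
  L := ![5, 1, 1]
  u := uY
  d := fun _ => 1
  ν := nuY
  σ := sgY

end FCB
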