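import Pool.Agent.H30.FCB.Pub

/-!
Graded rings with charts (Cox data), the charts as subalgebras of the fraction field, the
Veronese ring and its grading, models of the corresponding projective variety.
-/

open AlgebraicGeometry CategoryTheory

namespace FCB

/-- Cox data: a ring `R` with generators `X j` of degrees `deg j` in `ℤ ^ r`, an ample degree
`L`, and charts `c` given by the set `u c` of coordinates which are invertible on the chart, a
monomial `ν c` of degree `d c • L` supported exactly on `u c`, and a section `σ c` of the degree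
map with values in Laurent monomials supported on `u c`. -/
structure Cox (R ι C : Type) (r : ℕ) where
  X : ι → R
  deg : ι → (Fin r → ℤ)
  L : Fin r → ℤ
  u : C → Finset ι
  d : C → ℕ
  ν : C → ι → ℕ
  σ : C → (Fin r → ℤ) →+ (ι → ℤ)

namespace Cox

variable {R ι C : Type} {r : ℕ} [CommRing R] [Algebra ℂ R] [Fintype ι] (D : Cox R ι C r)

/-- degree of a monomial -/
def wt (n : ι → ℕ) : Fin r → ℤ := ∑ j, (n j : ℤ) • D.deg j

/-- degree of a Laurent monomial -/
def wtZ (n : ι → ℤ) : Fin r → ℤ := ∑ j, n j • D.deg j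

/-- monomials -/
def mono (n : ι → ℕ) : R := ∏ j, D.X j ^ n j

/-- homogeneous parts of `R`: spans of the monomials of a given degree -/
def gr (g : Fin r → ℤ) : Submodule ℂ R := Submodule.span ℂ (D.mono '' {n | D.wt n = g})

omit [CommRing R] [Algebra ℂ R] in
lemma wt_zero : D.wt 0 = 0 := by simp [wt]

omit [CommRing R] [Algebra ℂ R] in
lemma wt_add (m n : ι → ℕ) : D.wt (m + n) = D.wt m + D.wt n := by
  simp [wt, add_smul, Finset.sum_add_distrib]

omit [Algebra ℂ R] in
lemma mono_zero : D.mono 0 = 1 := by simp [mono]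

omit [Algebra ℂ R] in
lemma mono_add (m n : ι → ℕ) : D.mono (m + n) = D.mono m * D.mono n := by
  simp [mono, pow_add, Finset.prod_mul_distrib]

lemma mono_mem (n : ι → ℕ) : D.mono n ∈ D.gr (D.wt n) := Submodule.subset_span ⟨n, rfl, rfl⟩

lemma one_mem : (1 : R) ∈ D.gr 0 := by
  have h := D.mono_mem 0
  rwa [D.mono_zero, D.wt_zero] at h

lemma mul_mem {g h : Fin r → ℤ} {a b : R} (ha : a ∈ D.gr g) (hb : b ∈ D.gr h) :
    a * b ∈ D.gr (g + h) := by
  have h1 : a * b ∈ D.gr g * D.gr h := Submodule.mul_mem_mul ha hb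
  have h2 : D.gr g * D.gr h ≤ D.gr (g + h) := by
    rw [gr, gr, Submodule.span_mul_span]
    apply Submodule.span_le.2
    rintro _ ⟨_, ⟨m, hm, rfl⟩, _, ⟨n, hn, rfl⟩, rfl⟩
    have h := D.mono_mem (m + n)
    rw [D.mono_add, D.wt_add] at h
    simp only [Set.mem_ofPred_eq] at hm hn
    rwa [hm, hn] at h
  exact h2 h1

lemma algebraMap_mem (z : ℂ) : algebraMap ℂ R z ∈ D.gr 0 := by
  rw [Algebra.algebraMap_eq_smul_one]
  exact Submodule.smul_mem _ _ D.one_mem

/-- The Veronese ring `⊕ₘ R_{mL} Tᵐ` as a subalgebra of `R[T]`. -/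
def ver : Subalgebra ℂ (Polynomial R) where
  carrier := {P | ∀ m : ℕ, P.coeff m ∈ D.gr (m • D.L)}
  mul_mem' := by
    intro P Q hP hQ m
    rw [Polynomial.coeff_mul]
    refine Submodule.sum_mem _ fun x hx => ?_
    rw [Finset.HasAntidiagonal.mem_antidiagonal] at hx
    have h := D.mul_mem (hP x.1) (hQ x.2)
    rwa [← add_smul, hx] at h
  add_mem' := by
    intro P Q hP hQ m
    rw [Polynomial.coeff_add]
    exact Submodule.add_mem _ (hP m) (hQ m)
  algebraMap_mem' := by
    intro z m
    rw [Polynomial.algebraMap_apply, Polynomial.coeff_C]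
    split_ifs with h
    · subst h
      simpa using D.algebraMap_mem z
    · exact Submodule.zero_mem _

/-- The grading of the Veronese ring. -/
def verGr (m : ℕ) : Submodule ℂ D.ver where
  carrier := {P | ∀ k, k ≠ m → (P : Polynomial R).coeff k = 0}
  add_mem' := by
    intro P Q hP hQ k hk
    simp [hP k hk, hQ k hk]
  zero_mem' := by
    intro k hk
    simp
  smul_mem' := by
    intro z P hP k hk
    simp [hP k hk]

lemma coeff_mem_verGr (P : D.ver) (m : ℕ) :
    (⟨Polynomial.monomial m ((P : Polynomial R).coeff m), by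
      intro k
      rw [Polynomial.coeff_monomial]
      split_ifs with h
      · subst h; exact P.2 m
      · exact Submodule.zero_mem _⟩ : D.ver) ∈ D.verGr m := by
  intro k hk
  simp [Polynomial.coeff_monomial, hk.symm]

/-- The component of degree `m` of an element of the Veronese ring. -/
noncomputable def comp (P : D.ver) (m : ℕ) : D.verGr m := ⟨_, D.coeff_mem_verGr P m⟩

open DirectSum in
/-- The decomposition map of the Veronese ring. -/
noncomputable def dec (P : D.ver) : ⨁ i, D.verGr i :=
  ∑ m ∈ (P : Polynomial R).support, DirectSum.of (fun i => D.verGr i) m (D.comp P m)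

lemma comp_eq_zero (P : D.ver) (k : ℕ) (h0 : (P : Polynomial R).coeff k = 0) :
    D.comp P k = 0 := by
  apply Subtype.ext
  apply Subtype.ext
  simp [comp, h0]

lemma comp_add (P Q : D.ver) (k : ℕ) : D.comp (P + Q) k = D.comp P k + D.comp Q k := by
  apply Subtype.ext
  apply Subtype.ext
  simp [comp]

lemma dec_eq (P : D.ver) (S : Finset ℕ) (h : (P : Polynomial R).support ⊆ S) :
    D.dec P = ∑ m ∈ S, DirectSum.of (fun i => D.verGr i) m (D.comp P m) := by
  rw [dec]
  refine Finset.sum_subset h fun k _ hk => ?_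
  rw [D.comp_eq_zero P k (by simpa [Polynomial.mem_support_iff] using hk), map_zero]

lemma dec_add (P Q : D.ver) : D.dec (P + Q) = D.dec P + D.dec Q := by
  classical
  set S := (P : Polynomial R).support ∪ (Q : Polynomial R).support
  rw [D.dec_eq P S Finset.subset_union_left, D.dec_eq Q S Finset.subset_union_right,
    D.dec_eq (P + Q) S (by
      rw [Subalgebra.coe_add]
      exact Polynomial.support_add), ← Finset.sum_add_distrib]
  refine Finset.sum_congr rfl fun m _ => ?_
  rw [D.comp_add, map_add]

noncomputable instance : GradedAlgebra D.verGr where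
  one_mem := by
    intro k hk
    simp [Polynomial.coeff_one, hk]
  mul_mem := by
    intro i j P Q hP hQ k hk
    rw [MulMemClass.coe_mul, Polynomial.coeff_mul]
    refine Finset.sum_eq_zero fun x hx => ?_
    rw [Finset.HasAntidiagonal.mem_antidiagonal] at hx
    by_cases h1 : x.1 = i
    · have h2 : x.2 ≠ j := by rintro rfl; exact hk (by rw [← hx, h1])
      rw [hQ _ h2, mul_zero]
    · rw [hP _ h1, zero_mul]
  decompose' := D.dec
  left_inv := by
    intro P
    rw [dec, map_sum]
    apply Subtype.ext
    simp only [DirectSum.coeAddMonoidHom_of, AddSubmonoidClass.coe_finsetSum]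
    exact (Polynomial.as_sum_support (P : Polynomial R)).symm
  right_inv := by
    intro x
    induction x using DirectSum.induction_on with
    | zero => simp [dec]
    | of i P =>
      obtain ⟨P, hP⟩ := P
      simp only [DirectSum.coeAddMonoidHom_of]
      have hsupp : (P : Polynomial R).support ⊆ {i} := by
        intro k hk
        rw [Polynomial.mem_support_iff] at hk
        by_contra h
        exact hk (hP k (by simpa using h))
      rw [D.dec_eq P _ hsupp, Finset.sum_singleton]
      congr 1
      apply Subtype.ext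
      apply Subtype.ext
      simp only [comp]
      ext k
      rw [Polynomial.coeff_monomial]
      split_ifs with h
      · rw [h]
      · exact (hP k (Ne.symm h)).symm
    | add x y hx hy => rw [map_add, D.dec_add, hx, hy]

/-- The projective variety attached to Cox data. -/
noncomputable def proj : Scheme.{0} := Proj D.verGr

/-- Its structure morphism. -/
noncomputable def projStr : D.proj ⟶ Spec (.of ℂ) :=
  Proj.toSpecZero D.verGr ≫ Spec.map (CommRingCat.ofHom (algebraMap ℂ (D.verGr 0)))

/-- The monomial `ν c` as an element of degree `d c` of the Veronese ring. -/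
noncomputable def verMono (n : ι → ℕ) (m : ℕ) (h : D.wt n = m • D.L) : D.ver :=
  ⟨Polynomial.monomial m (D.mono n), by
    intro k
    rw [Polynomial.coeff_monomial]
    split_ifs with h1
    · subst h1
      rw [← h]
      exact D.mono_mem n
    · exact Submodule.zero_mem _⟩

/-- Laurent monomials in the fraction field. -/
noncomputable def monoZ [IsDomain R] (n : ι → ℤ) : FractionRing R :=
  ∏ j, algebraMap R (FractionRing R) (D.X j) ^ n j

/-- The chart `c`: fractions `a / m` with `m` a monomial in the coordinates in `u c` and `a`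
homogeneous of the same degree. -/
def chart (c : C) : Subalgebra ℂ (FractionRing R) where
  carrier := {f | ∃ (n : ι → ℕ) (a : R), (∀ j, n j ≠ 0 → j ∈ D.u c) ∧ a ∈ D.gr (D.wt n) ∧
    f * algebraMap R (FractionRing R) (D.mono n) = algebraMap R (FractionRing R) a}
  mul_mem' := by
    rintro f g ⟨m, a, hm, ha, h1⟩ ⟨n, b, hn, hb, h2⟩
    refine ⟨m + n, a * b, ?_, ?_, ?_⟩
    · intro j hj
      by_cases h : m j = 0
      · exact hn j (by simpa [h] using hj)
      · exact hm j h
    · rw [D.wt_add]
      exact D.mul_mem ha hb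
    · rw [D.mono_add, map_mul, map_mul, ← h1, ← h2]
      ring
  add_mem' := by
    rintro f g ⟨m, a, hm, ha, h1⟩ ⟨n, b, hn, hb, h2⟩
    refine ⟨m + n, a * D.mono n + b * D.mono m, ?_, ?_, ?_⟩
    · intro j hj
      by_cases h : m j = 0
      · exact hn j (by simpa [h] using hj)
      · exact hm j h
    · rw [D.wt_add]
      refine Submodule.add_mem _ (D.mul_mem ha (D.mono_mem n)) ?_
      rw [add_comm (D.wt m)]
      exact D.mul_mem hb (D.mono_mem m)
    · rw [D.mono_add, map_add, map_mul, map_mul, map_mul, ← h1, ← h2]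
      ring
  algebraMap_mem' := by
    intro z
    refine ⟨0, algebraMap ℂ R z, by simp, ?_, ?_⟩
    · rw [D.wt_zero]
      exact D.algebraMap_mem z
    · rw [D.mono_zero, map_one, mul_one]
      exact (IsScalarTower.algebraMap_apply ℂ R (FractionRing R) z)

/-- Sets of homogeneous elements which vanish at a point. -/
structure IsVan (V : Set R) : Prop where
  zero : (0 : R) ∈ V
  mul : ∀ g h a b, a ∈ D.gr g → b ∈ D.gr h → a * b ∈ V → a ∈ V ∨ b ∈ V
  ideal : ∀ g h a b, a ∈ D.gr g → b ∈ D.gr h → a ∈ V → a * b ∈ V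
  add : ∀ g a b, a ∈ D.gr g → b ∈ D.gr g → a ∈ V → b ∈ V → a + b ∈ V
  nonempty : ∃ m : ℕ, 0 < m ∧ ∃ n : ι → ℕ, D.wt n = m • D.L ∧ D.mono n ∉ V

/-- The properties of Cox data used in the general theory. -/
structure Laws : Prop where
  top : ∀ a : R, ∃ s : (Fin r → ℤ) →₀ R, (∀ g, s g ∈ D.gr g) ∧ (s.sum fun _ x => x) = a
  indep : ∀ s : (Fin r → ℤ) →₀ R, (∀ g, s g ∈ D.gr g) → (s.sum fun _ x => x) = 0 → s = 0
  prime : ∀ j, Prime (D.X j)
  nonassoc : ∀ i j, i ≠ j → ¬ Associated (D.X i) (D.X j)
  pos : ∃ φ : (Fin r → ℤ) →+ ℤ, ∀ j, 0 < φ (D.deg j)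
  dpos : ∀ c, 0 < D.d c
  une : ∀ c, (D.u c).Nonempty
  ν_supp : ∀ c j, D.ν c j ≠ 0 ↔ j ∈ D.u c
  ν_wt : ∀ c, D.wt (D.ν c) = D.d c • D.L
  σ_supp : ∀ c g j, D.σ c g j ≠ 0 → j ∈ D.u c
  σ_wt : ∀ c g, D.wtZ (D.σ c g) = g
  avoid : ∀ j, ∃ c, j ∉ D.u c
  cover : ∀ V : Set R, D.IsVan V → ∃ c, ∀ j ∈ D.u c, D.X j ∉ V

/-- The coordinate `X j` divided by the unit monomial of the same degree on the chart `c`. -/
noncomputable def co [IsDomain R] (c : C) (j : ι) : FractionRing R :=
  algebraMap R (FractionRing R) (D.X j) * D.monoZ (-(D.σ c (D.deg j)))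

end Cox

variable {R ι C : Type} {r : ℕ} [CommRing R] [Algebra ℂ R] [Fintype ι]

/-- A scheme over `ℂ` with an embedding of its function field in the fraction field of `R` and
an open cover by the spectra of the chart rings of `D`. -/
structure PreModel (D : Cox R ι C r) where
  X : Scheme.{0}
  str : X ⟶ Spec (.of ℂ)
  [int : IsIntegral X]
  [proper : IsProper str]
  [noeth : IsLocallyNoetherian X]
  emb : X.functionField →+* FractionRing R
  emb_C : ∀ z : ℂ, emb (ffHom str z) = algebraMap ℂ (FractionRing R) z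
  U : C → X.Opens
  [ne : ∀ c, Nonempty (U c)]
  aff : ∀ c, IsAffineOpen (U c)
  cov : ∀ x : X, ∃ c, x ∈ U c
  iso : ∀ c, Γ(X, U c) ≃+* D.chart c
  iso_emb : ∀ c (s : Γ(X, U c)), ((iso c s : D.chart c) : FractionRing R) =
    emb (X.germToFunctionField (U c) s)

attribute [instance] PreModel.int PreModel.proper PreModel.noeth PreModel.ne

namespace PreModel

variable {D : Cox R ι C r} (M : PreModel D)

/-- The fraction `a` is regular at the point `x`. -/
def regAt (x : M.X) (a : FractionRing R) : Prop :=
  ∃ s : M.X.presheaf.stalk x, M.emb (algebraMap _ M.X.functionField s) = a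

/-- The fraction `a` is regular and invertible at the point `x`. -/
def unitAt (x : M.X) (a : FractionRing R) : Prop :=
  ∃ s : M.X.presheaf.stalk x, IsUnit s ∧ M.emb (algebraMap _ M.X.functionField s) = a

/-- The prime ideal of the chart ring of a point of the chart. -/
noncomputable def pr (c : C) (x : M.X) (hx : x ∈ M.U c) : Ideal (D.chart c) :=
  (IsLocalRing.maximalIdeal (M.X.presheaf.stalk x)).comap
    ((M.X.presheaf.germ (M.U c) x hx).hom.comp (M.iso c).symm.toRingHom)

end PreModel

/-- Models of Cox data: the overlaps are given by the coordinates which do not vanish. -/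
structure Model (D : Cox R ι C r) [IsDomain R] extends PreModel D where
  inter : ∀ (c c' : C) (x : X), x ∈ U c →
    (x ∈ U c' ↔ ∀ j ∈ D.u c', toPreModel.unitAt x (D.co c j))

namespace Model

variable [IsDomain R] {D : Cox R ι C r} (M : Model D)

/-- The prime divisor `p` is given by the homogeneous prime element `π` of degree `g`. -/
def PrimeAt (p : PrimeDiv M.X) (π : R) (g : Fin r → ℤ) : Prop :=
  Prime π ∧ π ∈ D.gr g ∧ ∀ (c : C) (hp : p.1 ∈ M.U c) (a : D.chart c),
    a ∈ M.pr c p.1 hp ↔ ∃ b : D.chart c, (a : FractionRing R) =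
      b * (algebraMap R (FractionRing R) π * D.monoZ (-(D.σ c g)))

end Model

end FCB
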