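import Pool.Agent.H30.FCB.StE
import Pool.Agent.H30.FCB.Basic

open AlgebraicGeometry CategoryTheory

namespace FCB

theorem xlaws (h1 : S_XGRA) (h2 : S_XPRI) (h3 : S_XNAS) (h4 : S_XNUM) (h5 : S_XCOV) :
    DX.Laws where
  top := h1.1
  indep := h1.2
  prime := h2
  nonassoc := h3
  pos := h4.1
  dpos := h4.2.1
  une := h4.2.2.1
  ν_supp := h4.2.2.2.1
  ν_wt := h4.2.2.2.2.1
  σ_supp := h4.2.2.2.2.2.1
  σ_wt := h4.2.2.2.2.2.2.1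
  avoid := h4.2.2.2.2.2.2.2
  cover := h5

theorem ylaws (h1 : S_YALG) (h4 : S_YNUM) (h5 : S_YCOV) : DY.Laws where
  top := h1.1
  indep := h1.2.1
  prime := h1.2.2.1
  nonassoc := h1.2.2.2
  pos := h4.1
  dpos := h4.2.1
  une := h4.2.2.1
  ν_supp := h4.2.2.2.1
  ν_wt := h4.2.2.2.2.1
  σ_supp := h4.2.2.2.2.2.1
  σ_wt := h4.2.2.2.2.2.2.1
  avoid := h4.2.2.2.2.2.2.2
  cover := h5

theorem fina (hXD : S_XDOM) (hXU : S_XUFD) (hXG : S_XGRA) (hXP : S_XPRI) (hXN : S_XNAS)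
    (hXM : S_XNUM) (hXC : S_XCOV) (hYA : S_YALG) (hYM : S_YNUM) (hYC : S_YCOV)
    (hPM : S_PMOD) (hCL : S_CLS) (hAM : S_AMP) (hCO : S_CONE) (hPI : S_PICN) (hOR : S_ORIG)
    (hCU : S_CANU) (hSM : S_SMXY) (hSO : S_SMOC) (hXK : S_XCAN) (hYK : S_YCAN)
    (hPH : S_PHIX) (hMO : S_MORG) (hPR : S_PREI) (hCA : S_CONA) (hCB : S_CONB)
    (hF3 : S_FIB3) (hF4 : S_FIB4) (hFG : S_FIBG) : Answer := by
  haveI : IsDomain RX := hXD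
  haveI : UniqueFactorizationMonoid RX := hXU
  have LX : DX.Laws := xlaws hXG hXP hXN hXM hXC
  have LY : DY.Laws := ylaws hYA hYM hYC
  obtain ⟨MX⟩ := hPM RX CX ChX 5 DX LX
  obtain ⟨MY⟩ := hPM RY CY ChY 3 DY LY
  obtain ⟨KX⟩ := hCL RX CX ChX 5 DX LX MX
  obtain ⟨KY⟩ := hCL RY CY ChY 3 DY LY MY
  obtain ⟨⟨εX, hεX⟩, ⟨εY, hεY⟩⟩ := hOR
  haveI : Smooth MX.str := hSO _ _ _ _ DX MX.toPreModel (hSM.1 LX)
  haveI : Smooth MY.str := hSO _ _ _ _ DY MY.toPreModel (hSM.2 LY)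
  obtain ⟨AX, hAX⟩ := KX.surj DX.L
  obtain ⟨AY, hAY⟩ := KY.surj DY.L
  let X : SmoothProjVar :=
    { X := MX.X, str := MX.str, proj := ⟨AX, hAM _ _ _ _ DX LX MX KX AX hAX⟩ }
  let Y : SmoothProjVar :=
    { X := MY.X, str := MY.str, proj := ⟨AY, hAM _ _ _ _ DY LY MY KY AY hAY⟩ }
  obtain ⟨EX, hEX, hEX2⟩ := hXK LX MX KX
  obtain ⟨EY, hEY, hEY2⟩ := hYK LY MY KY
  obtain ⟨Φ, hΦ, hΦC, hΦc⟩ := hPH LX
  obtain ⟨f, hf⟩ := hMO _ _ _ _ _ _ _ _ DX DY MX.toPreModel MY.toPreModel Φ tau hΦC hΦc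
  have hpre : ∀ (c' : ChY) (x : MX.X), f x ∈ MY.U c' → ∃ c : ChX, tau c = c' ∧ x ∈ MX.U c :=
    hPR LX LY MX MY Φ f hΦ hf
  have hfib := hFG _ _ _ _ _ _ _ _ DX DY MX.toPreModel MY.toPreModel Φ tau f hf hpre
    (by
      intro c i hi k _ θ
      by_cases hc : c.2.2 = 4
      · exact hF4 LX c i hc ⟨Φ, hΦ, hi⟩ k θ
      · exact (hF3 LX c i hc ⟨Φ, hΦ, hi⟩ k θ).le)
    (by
      rintro ⟨i0, j0, k0⟩
      obtain ⟨kk, hk1, hk2⟩ : ∃ kk : Fin 5, tau (i0, j0, kk) = (i0, j0, k0) ∧ kk ≠ 4 := by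
        fin_cases k0
        · exact ⟨0, by simp [tau], by decide⟩
        · exact ⟨2, by simp [tau], by decide⟩
      refine ⟨(i0, j0, kk), hk1, ?_⟩
      intro i hi k _ θ
      exact hF3 LX _ i hk2 ⟨Φ, hΦ, hi⟩ k θ)
  refine ⟨X, Y, f, ⟨hf.comm, ⟨EX, hEX, ?_⟩, hfib.1, ?_, hfib.2⟩, ?_, ⟨EY, hEY⟩, ?_⟩
  · exact hAM _ _ _ _ DX LX MX KX _ (by
      rw [map_neg, hEX2, neg_neg]
      rfl)
  · exact hCB _ _ _ _ _ _ _ _ DX DY MX.toPreModel MY.toPreModel Φ tau f hf hpre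
      (fun c' a ha => hCA LX Φ hΦ c' a ha)
  · show picardNumber MX.X = picardNumber MY.X + 2
    rw [hPI _ _ _ _ DX LX MX KX (0, 0, 0) εX hεX, hPI _ _ _ _ DY LY MY KY (0, 0, 0) εY hεY]
  · intro K hK hA
    have h1 : LinEquiv K EY := hCU MY.X MY.str K EY hK hEY
    have h2 : KY.cls K = KY.cls EY := (KY.ker K EY).1 h1
    have h3 := hCO _ _ _ _ DY LY MY KY (0, 0, 0) εY hεY (-K) hA (.t 0)
    rw [map_neg, h2, hEY2, neg_neg] at h3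
    revert h3
    simp only [DY, sgY, AddMonoidHom.coe_mk, ZeroHom.coe_mk]
    simp [sigmaY, vecY, tw]

end FCB
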