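import Pool.Agent.H30.FCB.StE

open Matrix

namespace FCB

namespace LAD

/-- the equivalence `Unit ⊕ Fin n ≃ N` -/
noncomputable def eqv {N : Type} [DecidableEq N] {n : ℕ} (i : N) (e : Fin n ≃ {l : N // l ≠ i}) :
    Unit ⊕ Fin n ≃ N where
  toFun := Sum.elim (fun _ => i) (fun l => (e l).1)
  invFun := fun l => if h : l = i then Sum.inl () else Sum.inr (e.symm ⟨l, h⟩)
  left_inv := by
    rintro (_ | l)
    · simp
    · have h : (e l).1 ≠ i := (e l).2
      simp [h]
  right_inv := by
    intro l
    by_cases h : l = i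
    · simp [h]
    · simp [h]

lemma det_unit {m : Type} [Fintype m] [DecidableEq m] (A B : Matrix m m ℤ) (h : A * B = 1) :
    A.det = 1 ∨ A.det = -1 := by
  have h1 : A.det * B.det = 1 := by rw [← det_mul, h, det_one]
  exact Int.isUnit_iff.1 (IsUnit.of_mul_eq_one _ h1)

end LAD

open LAD in
theorem lad : S_LAD := by
  intro K V N N' _ _ _ _ _ _ _ n p q P Q κ κ' i i' e e' b b' hPQ hQP hp hq hκ hb hb' hne
  set f := eqv i e with hf
  set g := eqv i' e' with hg
  -- the big matrices
  set P' : Matrix (Unit ⊕ Fin n) (Unit ⊕ Fin n) ℤ := P.submatrix f g with hP'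
  set Q' : Matrix (Unit ⊕ Fin n) (Unit ⊕ Fin n) ℤ := Q.submatrix g f with hQ'
  have hPQ' : P' * Q' = 1 := by
    rw [hP', hQ', submatrix_mul_equiv, hPQ, submatrix_one_equiv]
  have hdet : P'.det = 1 ∨ P'.det = -1 := det_unit P' Q' hPQ'
  set PK : Matrix (Unit ⊕ Fin n) (Unit ⊕ Fin n) K := P'.map (Int.cast) with hPK
  have hdetK : PK.det = 1 ∨ PK.det = -1 := by
    have h : PK.det = ((P'.det : ℤ) : K) := by
      rw [hPK]
      exact (Int.cast_det P').symm
    rcases hdet with h1 | h1 <;> rw [h, h1] <;> simp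
  set A : Matrix Unit Unit K := fun _ _ => κ' i' with hA
  set B : Matrix Unit (Fin n) K := fun _ m => κ' (e' m).1 with hB
  set C : Matrix (Fin n) Unit K := fun l _ => (P (e l).1 i' : K) with hC
  set D : Matrix (Fin n) (Fin n) K := fun l m => (P (e l).1 (e' m).1 : K) with hD
  set T1 : Matrix Unit Unit K := fun _ _ => κ i with hT1
  set T2 : Matrix Unit (Fin n) K := fun _ l => κ (e l).1 with hT2
  set T : Matrix (Unit ⊕ Fin n) (Unit ⊕ Fin n) K :=
    fromBlocks T1 T2 (0 : Matrix (Fin n) Unit K) (1 : Matrix (Fin n) (Fin n) K) with hT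
  have hW : fromBlocks A B C D = T * PK := by
    have hsplit : ∀ (F : N → K), ∑ l, F l = F i + ∑ l, F (e l).1 := by
      intro F
      rw [← Equiv.sum_comp f F, Fintype.sum_sum_type]
      simp [hf, eqv]
    ext (x | x) (y | y)
    · simp only [mul_apply, Fintype.sum_sum_type, hT, fromBlocks_apply₁₁, fromBlocks_apply₁₂]
      simp only [hA, ← hκ, hsplit]
      simp [hT1, hT2, hPK, hP', hf, hg, eqv]
    · simp only [mul_apply, Fintype.sum_sum_type, hT, fromBlocks_apply₁₁, fromBlocks_apply₁₂]
      simp only [hB, ← hκ, hsplit]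
      simp [hT1, hT2, hPK, hP', hf, hg, eqv]
    · simp only [mul_apply, Fintype.sum_sum_type, hT, fromBlocks_apply₂₁, fromBlocks_apply₂₂]
      simp [hC, hPK, hP', hf, hg, eqv, one_apply]
    · simp only [mul_apply, Fintype.sum_sum_type, hT, fromBlocks_apply₂₁, fromBlocks_apply₂₂]
      simp [hD, hPK, hP', hf, hg, eqv, one_apply]
  have hdT : T.det = κ i := by
    rw [hT, det_fromBlocks_zero₂₁, det_one, mul_one, det_unique]
  have hAd : A.det = κ' i' := by
    rw [det_unique]
  have hAdet : IsUnit A.det := by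
    rw [isUnit_iff_ne_zero, hAd]
    exact hne
  have : Invertible A := invertibleOfIsUnitDet A hAdet
  have hmain : κ' i' * (D - C * ⅟A * B).det = κ i * PK.det := by
    rw [← hdT, ← det_mul, ← hW, det_fromBlocks₁₁, hAd]
  set A' : Matrix Unit Unit K := fun _ _ => (κ' i')⁻¹ with hA'
  have hAinv : ⅟A = A' := by
    have h1 : A * A' = 1 := by
      ext x y
      rw [mul_apply]
      simp only [hA, hA', Finset.univ_unique, Finset.sum_singleton]
      rw [mul_inv_cancel₀ hne]
      simp
    exact invOf_eq_right_inv h1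
  have hM : b'.det b = (D - C * ⅟A * B).det := by
    rw [Module.Basis.det_apply, ← det_transpose]
    congr 1
    ext l m
    rw [transpose_apply, Module.Basis.toMatrix_apply, hb l, hp]
    have hqs : ∑ j, (P (e l).1 j : K) • q j =
        ∑ m, ((P (e l).1 (e' m).1 : K) - (P (e l).1 i' : K) * (κ' i')⁻¹ * κ' (e' m).1) • b' m := by
      have hsplit : ∀ (F : N' → V), ∑ l, F l = F i' + ∑ l, F (e' l).1 := by
        intro F
        rw [← Equiv.sum_comp g F, Fintype.sum_sum_type]
        simp [hg, eqv]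
      rw [hsplit] at hq ⊢
      have h1 : q i' = -((κ' i')⁻¹ • ∑ l, κ' (e' l).1 • q (e' l).1) := by
        have h2 : κ' i' • q i' = -∑ l, κ' (e' l).1 • q (e' l).1 := eq_neg_of_add_eq_zero_left hq
        rw [← smul_neg, ← h2, smul_smul, inv_mul_cancel₀ hne, one_smul]
      rw [h1]
      simp only [sub_smul, Finset.sum_sub_distrib, hb']
      rw [smul_neg, Finset.smul_sum, Finset.smul_sum]
      simp only [smul_smul]
      rw [add_comm, ← sub_eq_add_neg]
      simp only [mul_assoc]
    rw [hqs, map_sum, Finsupp.finsetSum_apply, Finset.sum_eq_single m]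
    · rw [Matrix.sub_apply, hAinv, mul_apply]
      simp_rw [mul_apply]
      simp only [hC, hD, hB, hA', Finset.univ_unique, Finset.sum_singleton]
      simp
    · intro m' _ hm'
      simp [hm']
    · simp
  rw [hM, hmain]
  rcases hdetK with h | h <;> rw [h]
  · left; ring
  · right; ring

end FCB
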