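import Mathlib

/-!
Definitions for the statement: Weil divisors, ample divisors, canonical divisors, Picard number,
smooth projective varieties over the complex numbers, Fano conic bundles.
-/

open AlgebraicGeometry CategoryTheory

namespace FCB

/-- Points of codimension one of a scheme (generic points of prime divisors). -/
abbrev PrimeDiv (X : Scheme.{0}) : Type := {p : X // Order.coheight p = 1}

/-- Weil divisors (finite integral combinations of prime divisors). -/
abbrev WeilDiv (X : Scheme.{0}) : Type := PrimeDiv X →₀ ℤ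

section

variable {X : Scheme.{0}} [IsIntegral X] [IsLocallyNoetherian X]

/-- Linear equivalence: `E = D + div f` for a nonzero rational function `f`. -/
def LinEquiv (D E : WeilDiv X) : Prop :=
  ∃ f : X.functionField, f ≠ 0 ∧ ∀ p : PrimeDiv X, E p = D p + Scheme.ord f p.1

/-- `D` is ample: every point `x` lies in an affine open set which is the complement of the
support of an effective divisor linearly equivalent to a positive multiple of `D`. -/
def IsAmple (D : WeilDiv X) : Prop :=
  ∀ x : X, ∃ (n : ℕ) (E : WeilDiv X) (U : X.Opens),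
    0 < n ∧ LinEquiv (n • D) E ∧ 0 ≤ E ∧ IsAffineOpen U ∧ x ∈ U ∧
      ∀ y : X, y ∈ U ↔ ∀ p : PrimeDiv X, p.1 ⤳ y → E p = 0

variable (X)

/-- Numerically trivial divisors on a projective variety, by Kleiman's criterion:
`H + D` and `H - D` are ample for every ample `H`. -/
def numTriv : AddSubgroup (WeilDiv X) where
  carrier := {D | ∀ H : WeilDiv X, IsAmple H → IsAmple (H + D) ∧ IsAmple (H - D)}
  zero_mem' := fun H hH => by simpa using hH
  add_mem' := by
    intro D E hD hE H hH
    refine ⟨?_, ?_⟩
    · rw [← add_assoc]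
      exact (hE _ (hD H hH).1).1
    · rw [← sub_sub]
      exact (hE _ (hD H hH).2).2
  neg_mem' := by
    intro D hD H hH
    refine ⟨?_, ?_⟩
    · rw [← sub_eq_add_neg]
      exact (hD H hH).2
    · rw [sub_neg_eq_add]
      exact (hD H hH).1

/-- The Picard number: the rank of the group of divisors modulo numerical equivalence. -/
noncomputable def picardNumber : ℕ := Module.finrank ℤ (WeilDiv X ⧸ numTriv X)

end

/-- The `ℂ`-algebra structure on the sections of a scheme over `ℂ`. -/
noncomputable def secHom {X : Scheme.{0}} (s : X ⟶ Spec (.of ℂ)) (U : X.Opens) : ℂ →+* Γ(X, U) :=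
  (X.presheaf.map (homOfLE le_top).op).hom.comp
    (s.appTop.hom.comp (Scheme.ΓSpecIso (.of ℂ)).inv.hom)

/-- The `ℂ`-algebra structure on the function field of an integral scheme over `ℂ`. -/
noncomputable def ffHom {X : Scheme.{0}} [IsIntegral X] (s : X ⟶ Spec (.of ℂ)) :
    ℂ →+* X.functionField :=
  (X.presheaf.germ ⊤ (genericPoint X) trivial).hom.comp (secHom s ⊤)

/-- Smooth projective varieties over `ℂ`: integral schemes, smooth and proper over `ℂ`, which
carry an ample divisor. -/
structure SmoothProjVar where
  X : Scheme.{0}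
  str : X ⟶ Spec (.of ℂ)
  [int : IsIntegral X]
  [smooth : Smooth str]
  [proper : IsProper str]
  [noeth : IsLocallyNoetherian X]
  proj : ∃ D : WeilDiv X, IsAmple D

attribute [instance] SmoothProjVar.int SmoothProjVar.smooth SmoothProjVar.proper
  SmoothProjVar.noeth

/-- `t_1, …, t_n` are local coordinates on the open set `U`: their differentials form a basis of
the module of Kähler differentials of the ring of sections over `ℂ`. -/
def IsCoord {X : Scheme.{0}} (s : X ⟶ Spec (.of ℂ)) (U : X.Opens) {n : ℕ}
    (t : Fin n → Γ(X, U)) : Prop :=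
  letI : Algebra ℂ Γ(X, U) := (secHom s U).toAlgebra
  ∃ c : Module.Basis (Fin n) Γ(X, U) (Ω[Γ(X, U)⁄ℂ]), ∀ i, c i = KaehlerDifferential.D ℂ Γ(X, U) (t i)

/-- `D` is a canonical divisor: it is the divisor of a nonzero rational top form
`ω = b_1 ∧ … ∧ b_n`, where `b` is a basis of the Kähler differentials of the function field.
Near a prime divisor `p` one has `ω = g dt_1 ∧ … ∧ dt_n` with local coordinates `t_i`, where
`g` is the determinant of `b` with respect to `dt_1, …, dt_n`, and `D p = ord_p g`. -/
def IsCanonical {X : Scheme.{0}} [IsIntegral X] [IsLocallyNoetherian X]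
    (s : X ⟶ Spec (.of ℂ)) (D : WeilDiv X) : Prop :=
  letI : Algebra ℂ X.functionField := (ffHom s).toAlgebra
  ∃ (n : ℕ) (b : Module.Basis (Fin n) X.functionField (Ω[X.functionField⁄ℂ])),
    ∀ p : PrimeDiv X, ∃ (U : X.Opens) (_ : Nonempty U) (t : Fin n → Γ(X, U))
      (c : Module.Basis (Fin n) X.functionField (Ω[X.functionField⁄ℂ])),
      IsAffineOpen U ∧ p.1 ∈ U ∧ IsCoord s U t ∧
      (∀ i, c i = KaehlerDifferential.D ℂ X.functionField (X.germToFunctionField U (t i))) ∧
      D p = Scheme.ord (c.det b) p.1

/-- Fano varieties: the anticanonical divisors are ample. -/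
def IsFano (V : SmoothProjVar) : Prop := ∃ K : WeilDiv V.X, IsCanonical V.str K ∧ IsAmple (-K)

/-- Fano conic bundles `f : X → Y`: `X` is a smooth Fano variety, `f` is a contraction onto
`Y` and all fibres have dimension one. -/
structure IsFanoConicBundle (X Y : SmoothProjVar) (f : X.X ⟶ Y.X) : Prop where
  comm : f ≫ Y.str = X.str
  fano : IsFano X
  surj : Function.Surjective f
  contraction : ∀ V : Y.X.Opens, Function.Bijective (f.app V)
  fibre : ∀ y : Y.X, topologicalKrullDim (f.fiber y) = 1

/-- The answer to Q1. -/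
def Answer : Prop :=
  ∃ (X Y : SmoothProjVar) (f : X.X ⟶ Y.X), IsFanoConicBundle X Y f ∧
    picardNumber X.X = picardNumber Y.X + 2 ∧
    (∃ K : WeilDiv Y.X, IsCanonical Y.str K) ∧
    ∀ K : WeilDiv Y.X, IsCanonical Y.str K → ¬ IsAmple (-K)

end FCB
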