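import Pool.Agent.H30.FCB.Data

/-!
Statements A: algebra of Cox data (no schemes).
-/

namespace FCB

/-- HFAC: factors of nonzero homogeneous elements are homogeneous. -/
def S_HFAC : Prop :=
  ∀ (R ι C : Type) (r : ℕ) [CommRing R] [IsDomain R] [Algebra ℂ R] [Fintype ι]
    (D : Cox R ι C r), D.Laws → ∀ (g : Fin r → ℤ) (a b : R), a * b ∈ D.gr g → a * b ≠ 0 →
    ∃ g₁ g₂, a ∈ D.gr g₁ ∧ b ∈ D.gr g₂

/-- HUNI: a homogeneous unit has degree zero, the part of degree zero is `ℂ`, and degrees of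
nonzero homogeneous elements are unique. -/
def S_HUNI : Prop :=
  ∀ (R ι C : Type) (r : ℕ) [CommRing R] [IsDomain R] [Algebra ℂ R] [Fintype ι]
    (D : Cox R ι C r), D.Laws →
    (∀ (g : Fin r → ℤ) (a : R), a ∈ D.gr g → IsUnit a → g = 0) ∧
    (∀ a ∈ D.gr 0, ∃ z : ℂ, a = algebraMap ℂ R z) ∧
    (∀ (g h : Fin r → ℤ) (a : R), a ∈ D.gr g → a ∈ D.gr h → a ≠ 0 → g = h)

/-- HPRI: nonzero homogeneous elements are products of homogeneous primes. -/
def S_HPRI : Prop :=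
  ∀ (R ι C : Type) (r : ℕ) [CommRing R] [IsDomain R] [UniqueFactorizationMonoid R] [Algebra ℂ R]
    [Fintype ι] (D : Cox R ι C r), D.Laws → ∀ (g : Fin r → ℤ) (a : R), a ∈ D.gr g → a ≠ 0 →
    ∃ s : Multiset R, (∀ π ∈ s, Prime π ∧ ∃ g, π ∈ D.gr g) ∧ Associated s.prod a

/-- CHFG: the chart rings are finitely generated (Gordan's lemma, `AddSubmonoid.fg_eqLocusM`). -/
def S_CHFG : Prop :=
  ∀ (R ι C : Type) (r : ℕ) [CommRing R] [IsDomain R] [Algebra ℂ R] [Fintype ι]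
    (D : Cox R ι C r), D.Laws → ∀ c : C, Algebra.FiniteType ℂ (D.chart c)

/-- VEFG: the Veronese ring is finitely generated, and its part of degree zero is `ℂ`. -/
def S_VEFG : Prop :=
  ∀ (R ι C : Type) (r : ℕ) [CommRing R] [IsDomain R] [Algebra ℂ R] [Fintype ι]
    (D : Cox R ι C r), D.Laws →
    Algebra.FiniteType ℂ D.ver ∧ Function.Bijective (algebraMap ℂ (D.verGr 0))

/-- CHEL: elements of the chart rings. -/
def S_CHEL : Prop :=
  ∀ (R ι C : Type) (r : ℕ) [CommRing R] [IsDomain R] [Algebra ℂ R] [Fintype ι]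
    (D : Cox R ι C r), D.Laws → ∀ c : C,
    (∀ (g : Fin r → ℤ) (a : R), a ∈ D.gr g →
      algebraMap R (FractionRing R) a * D.monoZ (-(D.σ c g)) ∈ D.chart c) ∧
    (∀ n : ι → ℤ, (∀ j, n j ≠ 0 → j ∈ D.u c) → D.wtZ n = 0 → D.monoZ n ∈ D.chart c) ∧
    (∀ f ∈ D.chart c, ∃ (g : Fin r → ℤ) (a : R) (n : ι → ℤ), a ∈ D.gr g ∧
      (∀ j, n j ≠ 0 → j ∈ D.u c) ∧ D.wtZ n = 0 ∧
      f = algebraMap R (FractionRing R) a * D.monoZ (-(D.σ c g)) * D.monoZ n)

/-- HT1: prime ideals of height one of the chart rings are generated by homogeneous primes. -/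
def S_HT1 : Prop :=
  ∀ (R ι C : Type) (r : ℕ) [CommRing R] [IsDomain R] [UniqueFactorizationMonoid R] [Algebra ℂ R]
    [Fintype ι] (D : Cox R ι C r), D.Laws → ∀ (c : C) (P : Ideal (D.chart c)), P.IsPrime →
    P.height = 1 → ∃ (g : Fin r → ℤ) (π : R), Prime π ∧ π ∈ D.gr g ∧ (∀ j ∈ D.u c, ¬ π ∣ D.X j) ∧
      ∀ a : D.chart c, a ∈ P ↔ ∃ b : D.chart c,
        (a : FractionRing R) = b * (algebraMap R (FractionRing R) π * D.monoZ (-(D.σ c g)))

/-- HT1C: conversely, homogeneous primes which do not divide the units of the chart give prime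
ideals of height one. -/
def S_HT1C : Prop :=
  ∀ (R ι C : Type) (r : ℕ) [CommRing R] [IsDomain R] [UniqueFactorizationMonoid R] [Algebra ℂ R]
    [Fintype ι] (D : Cox R ι C r), D.Laws → ∀ (c : C) (g : Fin r → ℤ) (π : R), Prime π →
    π ∈ D.gr g → (∀ j ∈ D.u c, ¬ π ∣ D.X j) →
    ∃ P : Ideal (D.chart c), P.IsPrime ∧ P.height = 1 ∧
      ∀ a : D.chart c, a ∈ P ↔ ∃ b : D.chart c,
        (a : FractionRing R) = b * (algebraMap R (FractionRing R) π * D.monoZ (-(D.σ c g)))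

end FCB
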