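import Pool.Agent.H30.FCB.StA

/-!
Statements B: the projective variety attached to Cox data, points, orders, divisors.
-/

open AlgebraicGeometry CategoryTheory

namespace FCB

/-- `φ` is the evaluation of homogeneous fractions `a Tᵐ / b Tᵐ` as `a / b`. -/
def Cox.IsEmb {R ι C : Type} {r : ℕ} [CommRing R] [Algebra ℂ R] [Fintype ι]
    (D : Cox R ι C r) (S : Submonoid D.ver)
    (φ : HomogeneousLocalization D.verGr S →+* FractionRing R) : Prop :=
  ∀ q : HomogeneousLocalization.NumDenSameDeg D.verGr S,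
    φ (HomogeneousLocalization.mk q) *
        algebraMap R (FractionRing R) (((q.den : D.ver) : Polynomial R).coeff q.deg) =
      algebraMap R (FractionRing R) (((q.num : D.ver) : Polynomial R).coeff q.deg)

/-- EMBH: homogeneous localisations of the Veronese ring embed in the fraction field. -/
def S_EMBH : Prop :=
  ∀ (R ι C : Type) (r : ℕ) [CommRing R] [IsDomain R] [Algebra ℂ R] [Fintype ι]
    (D : Cox R ι C r) (S : Submonoid D.ver), (0 : D.ver) ∉ S →
    ∃ φ : HomogeneousLocalization D.verGr S →+* FractionRing R, Function.Injective φ ∧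
      D.IsEmb S φ

/-- AWCH: the image of the homogeneous localisation away from the monomial `ν c` is the
chart ring. -/
def S_AWCH : Prop :=
  ∀ (R ι C : Type) (r : ℕ) [CommRing R] [IsDomain R] [Algebra ℂ R] [Fintype ι]
    (D : Cox R ι C r) (h : D.Laws) (c : C)
    (φ : HomogeneousLocalization.Away D.verGr (D.verMono (D.ν c) (D.d c) (h.ν_wt c)) →+*
      FractionRing R), D.IsEmb _ φ → ∀ f : FractionRing R, f ∈ D.chart c ↔ ∃ y, φ y = f

/-- PINT: the variety is integral. -/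
def S_PINT : Prop :=
  ∀ (R ι C : Type) (r : ℕ) [CommRing R] [IsDomain R] [Algebra ℂ R] [Fintype ι] [Nonempty C]
    (D : Cox R ι C r), D.Laws → IsIntegral D.proj

/-- PPRO: the variety is proper over `ℂ` and locally noetherian. -/
def S_PPRO : Prop :=
  ∀ (R ι C : Type) (r : ℕ) [CommRing R] [IsDomain R] [Algebra ℂ R] [Fintype ι]
    (D : Cox R ι C r), D.Laws → IsProper D.projStr ∧ IsLocallyNoetherian D.proj

/-- PCOV: the charts cover the variety. -/
def S_PCOV : Prop :=
  ∀ (R ι C : Type) (r : ℕ) [CommRing R] [IsDomain R] [Algebra ℂ R] [Fintype ι]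
    (D : Cox R ι C r) (h : D.Laws) (x : Proj D.verGr), ∃ c : C,
      x ∈ Proj.basicOpen D.verGr (D.verMono (D.ν c) (D.d c) (h.ν_wt c))

/-- PMOD: there is a model (namely `D.proj`). -/
def S_PMOD : Prop :=
  ∀ (R ι C : Type) (r : ℕ) [CommRing R] [IsDomain R] [Algebra ℂ R] [Fintype ι] [Nonempty C]
    (D : Cox R ι C r), D.Laws → Nonempty (Model D)

/-- PRE1: the stalks are the localisations of the chart rings. -/
def S_PRE1 : Prop :=
  ∀ (R ι C : Type) (r : ℕ) [CommRing R] [IsDomain R] [Algebra ℂ R] [Fintype ι]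
    (D : Cox R ι C r) (M : PreModel D) (c : C) (x : M.X) (hx : x ∈ M.U c),
    (M.pr c x hx).IsPrime ∧
    (∀ a : D.chart c, M.regAt x a) ∧
    (∀ a : D.chart c, a ∈ M.pr c x hx ↔ ¬ M.unitAt x a) ∧
    (∀ f : FractionRing R, M.regAt x f ↔
      ∃ a b : D.chart c, b ∉ M.pr c x hx ∧ f * (b : FractionRing R) = a) ∧
    (∀ f : FractionRing R, M.unitAt x f ↔ f ≠ 0 ∧ M.regAt x f ∧ M.regAt x f⁻¹)

/-- PRE2: points of a chart are the primes of the chart ring, specialisation and codimension. -/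
def S_PRE2 : Prop :=
  ∀ (R ι C : Type) (r : ℕ) [CommRing R] [IsDomain R] [Algebra ℂ R] [Fintype ι]
    (D : Cox R ι C r) (M : PreModel D) (c : C),
    (∀ P : Ideal (D.chart c), P.IsPrime → ∃ (x : M.X) (hx : x ∈ M.U c), M.pr c x hx = P) ∧
    (∀ (x y : M.X) (hx : x ∈ M.U c) (hy : y ∈ M.U c), x ⤳ y ↔ M.pr c x hx ≤ M.pr c y hy) ∧
    (∀ (x : M.X) (hx : x ∈ M.U c), (M.pr c x hx).height = Order.coheight x)

/-- PRE3: the function field of a model is the field of fractions of degree zero. -/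
def S_PRE3 : Prop :=
  ∀ (R ι C : Type) (r : ℕ) [CommRing R] [IsDomain R] [Algebra ℂ R] [Fintype ι] [Nonempty C]
    (D : Cox R ι C r), D.Laws → ∀ M : PreModel D,
    (∀ f : M.X.functionField, f ≠ 0 → ∃ (g : Fin r → ℤ) (a b : R), a ∈ D.gr g ∧ b ∈ D.gr g ∧
      a ≠ 0 ∧ b ≠ 0 ∧ M.emb f * algebraMap R (FractionRing R) b =
        algebraMap R (FractionRing R) a) ∧
    (∀ (g : Fin r → ℤ) (a b : R), a ∈ D.gr g → b ∈ D.gr g → a ≠ 0 → b ≠ 0 →
      ∃ f : M.X.functionField, f ≠ 0 ∧ M.emb f * algebraMap R (FractionRing R) b =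
        algebraMap R (FractionRing R) a)

/-- ORD: the order at a prime divisor whose prime ideal in a chart is principal. -/
def S_ORD : Prop :=
  ∀ (R ι C : Type) (r : ℕ) [CommRing R] [IsDomain R] [Algebra ℂ R] [Fintype ι]
    (D : Cox R ι C r) (M : PreModel D) (c : C) (p : PrimeDiv M.X) (hp : p.1 ∈ M.U c)
    (π a b : D.chart c), M.pr c p.1 hp = Ideal.span {π} → a ∉ M.pr c p.1 hp →
    b ∉ M.pr c p.1 hp → ∀ (k : ℤ) (f : M.X.functionField),
    M.emb f * (b : FractionRing R) = (π : FractionRing R) ^ k * a → Scheme.ord f p.1 = k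

/-- PD1: every prime divisor is given by a homogeneous prime element. -/
def S_PD1 : Prop :=
  ∀ (R ι C : Type) (r : ℕ) [CommRing R] [IsDomain R] [UniqueFactorizationMonoid R] [Algebra ℂ R]
    [Fintype ι] (D : Cox R ι C r), D.Laws → ∀ (M : Model D) (p : PrimeDiv M.X),
    ∃ (π : R) (g : Fin r → ℤ), M.PrimeAt p π g

/-- PD2: every homogeneous prime element gives a prime divisor. -/
def S_PD2 : Prop :=
  ∀ (R ι C : Type) (r : ℕ) [CommRing R] [IsDomain R] [UniqueFactorizationMonoid R] [Algebra ℂ R]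
    [Fintype ι] [Nonempty C] (D : Cox R ι C r), D.Laws → ∀ (M : Model D) (π : R)
    (g : Fin r → ℤ), Prime π → π ∈ D.gr g → ∃ p : PrimeDiv M.X, M.PrimeAt p π g

/-- PD3: the prime element and the prime divisor determine each other; the divisor lies in the
chart `c` iff `π` divides none of the unit coordinates of `c`. -/
def S_PD3 : Prop :=
  ∀ (R ι C : Type) (r : ℕ) [CommRing R] [IsDomain R] [UniqueFactorizationMonoid R] [Algebra ℂ R]
    [Fintype ι] (D : Cox R ι C r), D.Laws → ∀ (M : Model D) (p p' : PrimeDiv M.X) (π π' : R)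
    (g g' : Fin r → ℤ), M.PrimeAt p π g → M.PrimeAt p' π' g' →
    (p = p' ↔ Associated π π') ∧ ∀ c, (p.1 ∈ M.U c ↔ ∀ j ∈ D.u c, ¬ π ∣ D.X j)

/-- PD4: orders of rational functions in terms of multiplicities in the Cox ring. -/
def S_PD4 : Prop :=
  ∀ (R ι C : Type) (r : ℕ) [CommRing R] [IsDomain R] [UniqueFactorizationMonoid R] [Algebra ℂ R]
    [Fintype ι] (D : Cox R ι C r), D.Laws → ∀ (M : Model D) (p : PrimeDiv M.X) (π : R)
    (g g' : Fin r → ℤ) (a b : R) (f : M.X.functionField), M.PrimeAt p π g →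
    a ∈ D.gr g' → b ∈ D.gr g' → a ≠ 0 → b ≠ 0 →
    M.emb f * algebraMap R (FractionRing R) b = algebraMap R (FractionRing R) a →
    Scheme.ord f p.1 = (multiplicity π a : ℤ) - multiplicity π b

/-- The class map of a model, with its properties. -/
structure Cls {R ι C : Type} {r : ℕ} [CommRing R] [IsDomain R] [Algebra ℂ R] [Fintype ι]
    {D : Cox R ι C r} (M : Model D) where
  cls : WeilDiv M.X →+ (Fin r → ℤ)
  single : ∀ (p : PrimeDiv M.X) (π : R) (g : Fin r → ℤ), M.PrimeAt p π g →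
    cls (Finsupp.single p 1) = g
  surj : Function.Surjective cls
  ker : ∀ D E : WeilDiv M.X, LinEquiv D E ↔ cls D = cls E
  eff : ∀ E : WeilDiv M.X, 0 ≤ E → ∃ h ∈ D.gr (cls E), h ≠ 0 ∧
    ∀ (p : PrimeDiv M.X) (π : R) (g : Fin r → ℤ), M.PrimeAt p π g → E p = multiplicity π h
  divh : ∀ (g : Fin r → ℤ), ∀ h ∈ D.gr g, h ≠ 0 → ∃ E : WeilDiv M.X, 0 ≤ E ∧ cls E = g ∧
    ∀ (p : PrimeDiv M.X) (π : R) (g : Fin r → ℤ), M.PrimeAt p π g → E p = multiplicity π h

/-- DIVH: the divisor of a homogeneous element; `P p` and `γ p` are the homogeneous prime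
element of `p` and its degree. -/
def S_DIVH : Prop :=
  ∀ (R ι C : Type) (r : ℕ) [CommRing R] [IsDomain R] [UniqueFactorizationMonoid R] [Algebra ℂ R]
    [Fintype ι] [Nonempty C] (D : Cox R ι C r), D.Laws → ∀ (M : Model D)
    (P : PrimeDiv M.X → R) (γ : PrimeDiv M.X → (Fin r → ℤ)), (∀ p, M.PrimeAt p (P p) (γ p)) →
    ∀ (g : Fin r → ℤ), ∀ h ∈ D.gr g, h ≠ 0 → ∃ E : WeilDiv M.X, 0 ≤ E ∧
      (E.sum fun p n => n • γ p) = g ∧ ∀ p, E p = multiplicity (P p) h

/-- EFFH: effective divisors are divisors of homogeneous elements. -/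
def S_EFFH : Prop :=
  ∀ (R ι C : Type) (r : ℕ) [CommRing R] [IsDomain R] [UniqueFactorizationMonoid R] [Algebra ℂ R]
    [Fintype ι] [Nonempty C] (D : Cox R ι C r), D.Laws → ∀ (M : Model D)
    (P : PrimeDiv M.X → R) (γ : PrimeDiv M.X → (Fin r → ℤ)), (∀ p, M.PrimeAt p (P p) (γ p)) →
    ∀ E : WeilDiv M.X, 0 ≤ E → ∃ h ∈ D.gr (E.sum fun p n => n • γ p), h ≠ 0 ∧
      ∀ p, E p = multiplicity (P p) h

/-- CLS: the class map exists. -/
def S_CLS : Prop :=
  ∀ (R ι C : Type) (r : ℕ) [CommRing R] [IsDomain R] [UniqueFactorizationMonoid R] [Algebra ℂ R]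
    [Fintype ι] [Nonempty C] (D : Cox R ι C r), D.Laws → ∀ (M : Model D), Nonempty (Cls M)

/-- AMP: divisors of class `L` are ample. -/
def S_AMP : Prop :=
  ∀ (R ι C : Type) (r : ℕ) [CommRing R] [IsDomain R] [UniqueFactorizationMonoid R] [Algebra ℂ R]
    [Fintype ι] [Nonempty C] (D : Cox R ι C r), D.Laws → ∀ (M : Model D) (K : Cls M)
    (E : WeilDiv M.X), K.cls E = D.L → IsAmple E

/-- The chart `c` is unimodular and contains the origin: there is a point where exactly the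
coordinates in `u c` do not vanish. -/
structure Cox.IsOrigin {R ι C : Type} {r : ℕ} [CommRing R] [Algebra ℂ R] [Fintype ι]
    [DecidableEq ι] (D : Cox R ι C r) (c : C) (ε : R →ₐ[ℂ] ℂ) : Prop where
  one : ∀ j ∈ D.u c, ε (D.X j) = 1
  zero : ∀ j, j ∉ D.u c → ε (D.X j) = 0
  uni : ∀ j ∈ D.u c, ∀ i, D.σ c (D.deg j) i = if i = j then 1 else 0

/-- CONE: classes of ample divisors have nonnegative coefficients at the origin of a
unimodular chart. -/
def S_CONE : Prop :=
  ∀ (R ι C : Type) (r : ℕ) [CommRing R] [IsDomain R] [UniqueFactorizationMonoid R] [Algebra ℂ R]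
    [Fintype ι] [DecidableEq ι] [Nonempty C] (D : Cox R ι C r), D.Laws →
    ∀ (M : Model D) (K : Cls M) (c : C) (ε : R →ₐ[ℂ] ℂ), D.IsOrigin c ε →
    ∀ E : WeilDiv M.X, IsAmple E → ∀ j, 0 ≤ D.σ c (K.cls E) j

/-- PICN: the Picard number is the rank of the grading group. -/
def S_PICN : Prop :=
  ∀ (R ι C : Type) (r : ℕ) [CommRing R] [IsDomain R] [UniqueFactorizationMonoid R] [Algebra ℂ R]
    [Fintype ι] [DecidableEq ι] [Nonempty C] (D : Cox R ι C r), D.Laws →
    ∀ (M : Model D) (_ : Cls M) (c : C) (ε : R →ₐ[ℂ] ℂ), D.IsOrigin c ε →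
    picardNumber M.X = r

/-- LINE: linear equivalence is an equivalence relation compatible with addition, and ampleness
only depends on the class. -/
def S_LINE : Prop :=
  ∀ (X : Scheme.{0}) [IsIntegral X] [IsLocallyNoetherian X],
    (∀ D : WeilDiv X, LinEquiv D D) ∧
    (∀ D E : WeilDiv X, LinEquiv D E → LinEquiv E D) ∧
    (∀ D E F : WeilDiv X, LinEquiv D E → LinEquiv E F → LinEquiv D F) ∧
    (∀ D E D' E' : WeilDiv X, LinEquiv D E → LinEquiv D' E' → LinEquiv (D + D') (E + E')) ∧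
    (∀ D E : WeilDiv X, LinEquiv D E → LinEquiv (-D) (-E)) ∧
    (∀ D E : WeilDiv X, LinEquiv D E → IsAmple D → IsAmple E)

/-- CANU: two canonical divisors are linearly equivalent. -/
def S_CANU : Prop :=
  ∀ (X : Scheme.{0}) [IsIntegral X] [IsLocallyNoetherian X] (s : X ⟶ Spec (.of ℂ))
    (K K' : WeilDiv X), IsCanonical s K → IsCanonical s K' → LinEquiv K K'

/-- SMOC: if all chart rings are smooth over `ℂ` then the model is smooth over `ℂ`. -/
def S_SMOC : Prop :=
  ∀ (R ι C : Type) (r : ℕ) [CommRing R] [IsDomain R] [Algebra ℂ R] [Fintype ι]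
    (D : Cox R ι C r) (M : PreModel D), (∀ c : C, Algebra.Smooth ℂ (D.chart c)) →
    Smooth M.str

end FCB
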