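import Pool.Agent.H30.FCB.StC

/-!
Statements D: Kähler differentials and the canonical divisors of `X` and `Y`.
-/

open MvPolynomial AlgebraicGeometry CategoryTheory

namespace FCB

/-- KHYP: on a localisation `B` of `ℂ[X_j] / (F)` on which `∂F / ∂X_i` is invertible, the
differentials of the other variables form a basis. -/
def S_KHYP : Prop :=
  ∀ (ι : Type) [Fintype ι] [DecidableEq ι] (F : MvPolynomial ι ℂ) (i : ι)
    (S : Submonoid (MvPolynomial ι ℂ ⧸ Ideal.span {F})) (B : Type) [CommRing B]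
    [Algebra (MvPolynomial ι ℂ ⧸ Ideal.span {F}) B] [Algebra ℂ B]
    [IsScalarTower ℂ (MvPolynomial ι ℂ ⧸ Ideal.span {F}) B], IsLocalization S B →
    IsUnit (algebraMap (MvPolynomial ι ℂ ⧸ Ideal.span {F}) B (Ideal.Quotient.mk _ (pderiv i F))) →
    ∃ b : Module.Basis {j : ι // j ≠ i} B (Ω[B⁄ℂ]), ∀ j, b j =
      KaehlerDifferential.D ℂ B (algebraMap (MvPolynomial ι ℂ ⧸ Ideal.span {F}) B
        (Ideal.Quotient.mk _ (X j.1)))

/-- KPOL: on a localisation `B` of a polynomial ring the differentials of the variables form a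
basis. -/
def S_KPOL : Prop :=
  ∀ (ι : Type) [Fintype ι] [DecidableEq ι] (S : Submonoid (MvPolynomial ι ℂ)) (B : Type)
    [CommRing B] [Algebra (MvPolynomial ι ℂ) B] [Algebra ℂ B]
    [IsScalarTower ℂ (MvPolynomial ι ℂ) B], IsLocalization S B →
    ∃ b : Module.Basis ι B (Ω[B⁄ℂ]), ∀ j, b j =
      KaehlerDifferential.D ℂ B (algebraMap (MvPolynomial ι ℂ) B (X j))

/-- The dehomogenised equation on the chart `c`: the variables in `u c` are set to `1`. -/
noncomputable def FXc (c : ChX) : MvPolynomial {j : CX // j ∉ uX c} ℂ :=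
  aeval (fun j => if h : j ∈ uX c then (1 : MvPolynomial {j : CX // j ∉ uX c} ℂ) else X ⟨j, h⟩) FX

/-- PRSX: presentation of the unimodular chart rings of `X`. -/
def S_PRSX : Prop :=
  ∀ [IsDomain RX], ∀ c : ChX, c.2.2 ≠ 4 →
    ∃ φ : MvPolynomial {j : CX // j ∉ uX c} ℂ →ₐ[ℂ] FractionRing RX,
      (∀ j, φ (X j) = DX.co c j.1) ∧ φ.range = DX.chart c ∧
      RingHom.ker φ.toRingHom = Ideal.span {FXc c}

/-- PRSY: presentation of the chart rings of `Y`. -/
def S_PRSY : Prop :=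
  ∀ c : ChY, ∃ φ : MvPolynomial {j : CY // j ∉ uY c} ℂ →ₐ[ℂ] FractionRing RY,
      (∀ j, φ (X j) = DY.co c j.1) ∧ φ.range = DY.chart c ∧ Function.Injective φ

/-- X1CH: a prime divisor of `X` meets one of the unimodular charts, and some partial derivative
of the dehomogenised equation does not vanish there. -/
def S_X1CH : Prop :=
  ∀ [IsDomain RX] [UniqueFactorizationMonoid RX], DX.Laws → ∀ (M : Model DX)
    (p : PrimeDiv M.X), ∃ (c : ChX) (hp : p.1 ∈ M.U c)
    (i : {j : CX // j ∉ uX c}), c.2.2 ≠ 4 ∧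
    ∀ a : DX.chart c, (a : FractionRing RX) = aeval (fun j => DX.co c j.1) (pderiv i (FXc c)) →
      a ∉ M.pr c p.1 hp

/-- LOCC: local coordinates on a scheme from algebraic local coordinates on a chart: `h` does not
vanish at `p`, and the differentials of `t_1, …, t_n` form a basis on the localisation of the
chart ring at `h`. -/
def S_LOCC : Prop :=
  ∀ (R ι C : Type) (r : ℕ) [CommRing R] [IsDomain R] [Algebra ℂ R] [Fintype ι]
    (D : Cox R ι C r) (M : PreModel D) (c : C) (x : M.X) (hx : x ∈ M.U c) (h : D.chart c)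
    (n : ℕ) (t : Fin n → D.chart c), h ∉ M.pr c x hx →
    (∃ b : Module.Basis (Fin n) (Localization.Away h) (Ω[Localization.Away h⁄ℂ]), ∀ i, b i =
      KaehlerDifferential.D ℂ (Localization.Away h)
        (algebraMap (D.chart c) (Localization.Away h) (t i))) →
    letI : Algebra ℂ M.X.functionField := (ffHom M.str).toAlgebra
    ∃ (U : M.X.Opens) (_ : Nonempty U) (s : Fin n → Γ(M.X, U))
      (c : Module.Basis (Fin n) M.X.functionField (Ω[M.X.functionField⁄ℂ])),
      IsAffineOpen U ∧ x ∈ U ∧ IsCoord M.str U s ∧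
      (∀ i, M.emb (M.X.germToFunctionField U (s i)) = t i) ∧
      (∀ i, c i = KaehlerDifferential.D ℂ M.X.functionField (M.X.germToFunctionField U (s i)))

/-- LAD: `q` and `p` are two systems of `n + 1` vectors related by an invertible integral matrix,
with compatible linear relations `κ'` and `κ`; the determinant of the `p l`, `l ≠ i`, with
respect to the `q j`, `j ≠ i'`, is `± κ i / κ' i'`. -/
def S_LAD : Prop :=
  ∀ (K V N N' : Type) [Field K] [AddCommGroup V] [Module K V] [Fintype N] [DecidableEq N]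
    [Fintype N'] [DecidableEq N'] (n : ℕ) (p : N → V) (q : N' → V) (P : Matrix N N' ℤ)
    (Q : Matrix N' N ℤ) (κ : N → K) (κ' : N' → K) (i : N) (i' : N')
    (e : Fin n ≃ {l : N // l ≠ i}) (e' : Fin n ≃ {l : N' // l ≠ i'})
    (b b' : Module.Basis (Fin n) K V), P * Q = 1 → Q * P = 1 →
    (∀ l, p l = ∑ j, (P l j : K) • q j) → (∑ j, κ' j • q j = 0) →
    (∀ j, ∑ l, κ l * (P l j : K) = κ' j) →
    (∀ l, b l = p (e l).1) → (∀ l, b' l = q (e' l).1) → κ' i' ≠ 0 →
    κ' i' * b'.det b = κ i ∨ κ' i' * b'.det b = -κ i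

/-- LADY: the case without relation: two bases related by an invertible integral matrix. -/
def S_LADY : Prop :=
  ∀ (K V N N' : Type) [Field K] [AddCommGroup V] [Module K V] [Fintype N] [DecidableEq N]
    [Fintype N'] [DecidableEq N'] (n : ℕ) (p : N → V) (q : N' → V) (P : Matrix N N' ℤ)
    (Q : Matrix N' N ℤ) (e : Fin n ≃ N) (e' : Fin n ≃ N')
    (b b' : Module.Basis (Fin n) K V), P * Q = 1 → Q * P = 1 →
    (∀ l, p l = ∑ j, (P l j : K) • q j) →
    (∀ l, b l = p (e l)) → (∀ l, b' l = q (e' l)) →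
    b'.det b = 1 ∨ b'.det b = -1

/-- Coefficients of the equation `F = x² + 2zab + (y₀y₁ - y₂²)(w²a² + v²b²)`. -/
def cF : Fin 6 → ℂ := ![1, 2, 1, 1, -1, -1]

/-- Exponents of the equation of `X`. -/
def expF (k : Fin 6) : CX → ℤ :=
  match k with
  | 0 => Pi.single .x 2
  | 1 => Pi.single .z 1 + Pi.single .a 1 + Pi.single .b 1
  | 2 => Pi.single (.y 0) 1 + Pi.single (.y 1) 1 + Pi.single .w 2 + Pi.single .a 2
  | 3 => Pi.single (.y 0) 1 + Pi.single (.y 1) 1 + Pi.single .v 2 + Pi.single .b 2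
  | 4 => Pi.single (.y 2) 2 + Pi.single .w 2 + Pi.single .a 2
  | 5 => Pi.single (.y 2) 2 + Pi.single .v 2 + Pi.single .b 2

/-- Exponents of the coordinate `j` of the chart `c`. -/
def ecX (c : ChX) (j : CX) : CX → ℤ := Pi.single j 1 - sigmaX c (degX j)

/-- The relation vector between the logarithmic differentials. -/
noncomputable def kap {K : Type} [Field K] [Algebra ℂ K] (χ : (CX → ℤ) → K) (j : CX) : K :=
  ∑ k, cF k • ((expF k j : K) * χ (expF k - expF 0))

/-- KAPP: the relation `∑ c_τ X^τ = 0` in the fraction field, and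
`X_i ∂_i F = a_i ∂_i F_c(a) X^{σ_c(2N)}` for the coordinates `a` of a unimodular chart. -/
def S_KAPP : Prop :=
  ∀ [IsDomain RX], (∑ k, cF k • DX.monoZ (expF k) = 0) ∧
    ∀ (c : ChX), c.2.2 ≠ 4 → ∀ i : {j : CX // j ∉ uX c},
      ∑ k, cF k • ((expF k i.1 : FractionRing RX) * DX.monoZ (expF k)) =
        DX.co c i.1 * aeval (fun j : {j : CX // j ∉ uX c} => DX.co c j.1) (pderiv i (FXc c)) *
          DX.monoZ (sigmaX c ![0, 0, 0, 0, 2])

/-- DETX: comparison of the coordinates of two unimodular charts of `X`. -/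
def S_DETX : Prop :=
  ∀ (K : Type) [Field K] [Algebra ℂ K] (χ : (CX → ℤ) → K), χ 0 = 1 →
    (∀ m n, DX.wtZ m = 0 → DX.wtZ n = 0 → χ (m + n) = χ m * χ n) →
    (∀ n, DX.wtZ n = 0 → χ n ≠ 0) → (∑ k, cF k • χ (expF k - expF 0) = 0) →
    ∀ (c c' : ChX), c.2.2 ≠ 4 → c'.2.2 ≠ 4 → ∀ (i : {j : CX // j ∉ uX c})
      (i' : {j : CX // j ∉ uX c'}) (n : ℕ) (e : Fin n ≃ {l : {j : CX // j ∉ uX c} // l ≠ i})
      (e' : Fin n ≃ {l : {j : CX // j ∉ uX c'} // l ≠ i'})
      (b b' : Module.Basis (Fin n) K (Ω[K⁄ℂ])),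
    (∀ l, b l = KaehlerDifferential.D ℂ K (χ (ecX c (e l).1.1))) →
    (∀ l, b' l = KaehlerDifferential.D ℂ K (χ (ecX c' (e' l).1.1))) → kap χ i'.1 ≠ 0 →
    (kap χ i'.1 * b'.det b * ∏ l, χ (ecX c' (e' l).1.1) = kap χ i.1 * ∏ l, χ (ecX c (e l).1.1) ∨
     kap χ i'.1 * b'.det b * ∏ l, χ (ecX c' (e' l).1.1) =
      -(kap χ i.1 * ∏ l, χ (ecX c (e l).1.1)))

/-- XCAN: the canonical class of `X`. -/
def S_XCAN : Prop :=
  ∀ [IsDomain RX] [UniqueFactorizationMonoid RX], DX.Laws → ∀ (M : Model DX) (K : Cls M),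
    ∃ E : WeilDiv M.X, IsCanonical M.str E ∧ K.cls E = -![3, 3, 1, 1, 1]

/-- YCAN: the canonical class of `Y`. -/
def S_YCAN : Prop :=
  DY.Laws → ∀ (M : Model DY) (K : Cls M),
    ∃ E : WeilDiv M.X, IsCanonical M.str E ∧ K.cls E = -![7, 1, 2]

end FCB
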