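import Pool.Agent.H30.FCB.StD

/-!
Statements E: the conic bundle `X → Y`.
-/

open MvPolynomial AlgebraicGeometry CategoryTheory

namespace FCB

/-- The inclusion of the Cox ring of `Y` in the Cox ring of `X`: `o ↦ w v`. -/
noncomputable def phi : RY →ₐ[ℂ] RX :=
  aeval fun j => match j with
    | .t i => DX.X (.t i)
    | .y j => DX.X (.y j)
    | .z => DX.X .z
    | .o => DX.X .w * DX.X .v

/-- The chart of `Y` below a chart of `X`. -/
def tau (c : ChX) : ChY := (c.1, c.2.1, if c.2.2 = 0 ∨ c.2.2 = 1 then 0 else 1)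

/-- `Φ` is the extension of `phi` to the fraction fields. -/
def IsPhi [IsDomain RX] (Φ : FractionRing RY →+* FractionRing RX) : Prop :=
  ∀ a : RY, Φ (algebraMap RY (FractionRing RY) a) = algebraMap RX (FractionRing RX) (phi a)

/-- PHIX: `phi` extends to the fraction fields and maps chart rings to chart rings. -/
def S_PHIX : Prop :=
  ∀ [IsDomain RX], DX.Laws → ∃ Φ : FractionRing RY →+* FractionRing RX, IsPhi Φ ∧
    (∀ z : ℂ, Φ (algebraMap ℂ _ z) = algebraMap ℂ _ z) ∧
    ∀ (c : ChX), ∀ f ∈ DY.chart (tau c), Φ f ∈ DX.chart c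

/-- The morphism `f` of models is given by the homomorphism `Φ` of fraction fields and maps the
chart `c` to the chart `τ c`. -/
structure IsMor {R ι C : Type} {r : ℕ} [CommRing R] [Algebra ℂ R] [Fintype ι]
    {R' ι' C' : Type} {r' : ℕ} [CommRing R'] [Algebra ℂ R'] [Fintype ι']
    {D : Cox R ι C r} {D' : Cox R' ι' C' r'} (M : PreModel D) (M' : PreModel D')
    (Φ : FractionRing R' →+* FractionRing R) (τ : C → C') (f : M.X ⟶ M'.X) : Prop where
  comm : f ≫ M'.str = M.str
  mem : ∀ (c : C) (x : M.X), x ∈ M.U c → f x ∈ M'.U (τ c)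
  stalk : ∀ (x : M.X) (s : M'.X.presheaf.stalk (f x)),
    M.emb (algebraMap _ M.X.functionField ((f.stalkMap x).hom s)) =
      Φ (M'.emb (algebraMap _ M'.X.functionField s))

/-- MORG: existence of morphisms of models. -/
def S_MORG : Prop :=
  ∀ (R ι C : Type) (r : ℕ) [CommRing R] [IsDomain R] [Algebra ℂ R] [Fintype ι]
    (R' ι' C' : Type) (r' : ℕ) [CommRing R'] [IsDomain R'] [Algebra ℂ R'] [Fintype ι']
    (D : Cox R ι C r) (D' : Cox R' ι' C' r') (M : PreModel D) (M' : PreModel D')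
    (Φ : FractionRing R' →+* FractionRing R) (τ : C → C'),
    (∀ z : ℂ, Φ (algebraMap ℂ _ z) = algebraMap ℂ _ z) →
    (∀ c : C, ∀ f ∈ D'.chart (τ c), Φ f ∈ D.chart c) → ∃ f : M.X ⟶ M'.X, IsMor M M' Φ τ f

/-- PREI: the inverse image of a chart of `Y` is covered by the charts of `X` above it. -/
def S_PREI : Prop :=
  ∀ [IsDomain RX], DX.Laws → DY.Laws → ∀ (M : Model DX) (M' : Model DY)
    (Φ : FractionRing RY →+* FractionRing RX) (f : M.X ⟶ M'.X), IsPhi Φ →
    IsMor M.toPreModel M'.toPreModel Φ tau f → ∀ (c' : ChY) (x : M.X), f x ∈ M'.U c' →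
    ∃ c : ChX, tau c = c' ∧ x ∈ M.U c

/-- CONA: a fraction which is regular on all charts above `c'` comes from `Y`. -/
def S_CONA : Prop :=
  ∀ [IsDomain RX] [UniqueFactorizationMonoid RX], DX.Laws →
    ∀ (Φ : FractionRing RY →+* FractionRing RX), IsPhi Φ → ∀ (c' : ChY) (f : FractionRing RX),
    (∀ c : ChX, tau c = c' → f ∈ DX.chart c) → ∃ f' ∈ DY.chart c', Φ f' = f

/-- CONB: a morphism of models with `f_* O_X = O_Y` on charts is a contraction. -/
def S_CONB : Prop :=
  ∀ (R ι C : Type) (r : ℕ) [CommRing R] [IsDomain R] [Algebra ℂ R] [Fintype ι] [Finite C]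
    (R' ι' C' : Type) (r' : ℕ) [CommRing R'] [IsDomain R'] [Algebra ℂ R'] [Fintype ι']
    (D : Cox R ι C r) (D' : Cox R' ι' C' r') (M : PreModel D) (M' : PreModel D')
    (Φ : FractionRing R' →+* FractionRing R) (τ : C → C') (f : M.X ⟶ M'.X), IsMor M M' Φ τ f →
    (∀ (c' : C') (x : M.X), f x ∈ M'.U c' → ∃ c : C, τ c = c' ∧ x ∈ M.U c) →
    (∀ (c' : C') (a : FractionRing R), (∀ c : C, τ c = c' → a ∈ D.chart c) →
      ∃ a' ∈ D'.chart c', Φ a' = a) →
    ∀ V : M'.X.Opens, Function.Bijective (f.app V)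

/-- FIB3: the fibres of the unimodular chart rings of `X` over the chart rings of `Y` have Krull
dimension one. -/
def S_FIB3 : Prop :=
  ∀ [IsDomain RX], DX.Laws → ∀ (c : ChX) (i : DY.chart (tau c) →+* DX.chart c), c.2.2 ≠ 4 →
    (∃ Φ : FractionRing RY →+* FractionRing RX, IsPhi Φ ∧ ∀ a, (i a : FractionRing RX) = Φ a) →
    ∀ (k : Type) [Field k] (θ : DY.chart (tau c) →+* k),
    letI := i.toAlgebra
    letI := θ.toAlgebra
    ringKrullDim (TensorProduct (DY.chart (tau c)) (DX.chart c) k) = 1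

/-- FIB4: the fibres of the other chart rings have Krull dimension at most one. -/
def S_FIB4 : Prop :=
  ∀ [IsDomain RX], DX.Laws → ∀ (c : ChX) (i : DY.chart (tau c) →+* DX.chart c), c.2.2 = 4 →
    (∃ Φ : FractionRing RY →+* FractionRing RX, IsPhi Φ ∧ ∀ a, (i a : FractionRing RX) = Φ a) →
    ∀ (k : Type) [Field k] (θ : DY.chart (tau c) →+* k),
    letI := i.toAlgebra
    letI := θ.toAlgebra
    ringKrullDim (TensorProduct (DY.chart (tau c)) (DX.chart c) k) ≤ 1

/-- FIBG: Krull dimension of the fibres of a morphism of models from the fibres of the chart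
rings. -/
def S_FIBG : Prop :=
  ∀ (R ι C : Type) (r : ℕ) [CommRing R] [IsDomain R] [Algebra ℂ R] [Fintype ι]
    (R' ι' C' : Type) (r' : ℕ) [CommRing R'] [IsDomain R'] [Algebra ℂ R'] [Fintype ι']
    (D : Cox R ι C r) (D' : Cox R' ι' C' r') (M : PreModel D) (M' : PreModel D')
    (Φ : FractionRing R' →+* FractionRing R) (τ : C → C') (f : M.X ⟶ M'.X), IsMor M M' Φ τ f →
    (∀ (c' : C') (x : M.X), f x ∈ M'.U c' → ∃ c : C, τ c = c' ∧ x ∈ M.U c) →
    (∀ (c : C) (i : D'.chart (τ c) →+* D.chart c), (∀ a, (i a : FractionRing R) = Φ a) →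
      ∀ (k : Type) [Field k] (θ : D'.chart (τ c) →+* k),
      letI := i.toAlgebra
      letI := θ.toAlgebra
      ringKrullDim (TensorProduct (D'.chart (τ c)) (D.chart c) k) ≤ 1) →
    (∀ c' : C', ∃ c : C, τ c = c' ∧
      ∀ (i : D'.chart (τ c) →+* D.chart c), (∀ a, (i a : FractionRing R) = Φ a) →
      ∀ (k : Type) [Field k] (θ : D'.chart (τ c) →+* k),
      letI := i.toAlgebra
      letI := θ.toAlgebra
      ringKrullDim (TensorProduct (D'.chart (τ c)) (D.chart c) k) = 1) →
    Function.Surjective f ∧ ∀ y : M'.X, topologicalKrullDim (f.fiber y) = 1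

/-- The final answer. -/
def S_FINA : Prop := Answer

end FCB
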